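import Pool.Agent.N754.FG.Unit
import Pool.Agent.N49.FG.RQ1
import Pool.Agent.N455.FG.RQ3
import Pool.Agent.N558.FG.SP

/-!
Points of projective space at which linear forms in general position are units of a finitely generated
ring, up to scaling (helper file).
-/

set_option autoImplicit false

namespace Pool.Agent.K6.H79.ZP

open Filter Pool.Agent.N754.FG

/-- In a relation between sequences of units of a finitely generated ring the sums over the classes of
proportional sequences vanish. -/
theorem classes (S : Set ℂ) (hS : S.Finite) {J : Type} [Fintype J] (g : J → ℕ → ℂ)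
    (hu : ∀ j k, g j k ≠ 0 ∧ g j k ∈ Subring.closure S ∧ (g j k)⁻¹ ∈ Subring.closure S)
    (𝒰 : Ultrafilter ℕ) (c : J → ℂ) (hc : ∀ᶠ k in (𝒰 : Filter ℕ), ∑ j, c j * g j k = 0) (j0 : J)
    (A : Finset J) (hA : ∀ j, j ∈ A ↔ ∃ a : ℂ, ∀ᶠ k in (𝒰 : Filter ℕ), g j k = a * g j0 k) :
    ∀ᶠ k in (𝒰 : Filter ℕ), ∑ j ∈ A, c j * g j k = 0 := by
  classical
  have hSP : SP := Pool.Agent.N558.FG.sp (Pool.Agent.N455.FG.rq3 Pool.Agent.N49.FG.rq1)
  set R := Subring.closure S with hR
  let u : J → (ℕ → R)ˣ := fun l =>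
    { val := fun k => ⟨g l k, (hu l k).2.1⟩
      inv := fun k => ⟨(g l k)⁻¹, (hu l k).2.2⟩
      val_inv := by
        funext k
        apply Subtype.ext
        exact mul_inv_cancel₀ (hu l k).1
      inv_val := by
        funext k
        apply Subtype.ext
        exact inv_mul_cancel₀ (hu l k).1 }
  let G : J → (BC 𝒰)ˣ := fun l => Units.map (PhC 𝒰 R : (ℕ → R) →* BC 𝒰) (u l)
  have hG : ∀ l, (G l : BC 𝒰) = gC 𝒰 (g l) := fun l => rfl
  have hGne : ∀ l, (G l : BC 𝒰) ≠ 0 := fun l => (G l).ne_zero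
  have hprop : ∀ l l', (∃ a : ℂ, (G l : BC 𝒰) = algebraMap ℂ (BC 𝒰) a * G l') ↔
      ∃ a : ℂ, ∀ᶠ k in (𝒰 : Filter ℕ), g l k = a * g l' k := by
    intro l l'
    refine exists_congr fun a => ?_
    rw [hG, hG, gC_const, ← map_mul, gC_eq]
    rfl
  let r : J → J → Prop := fun l l' =>
    ∃ a : ℂ, (G l : BC 𝒰) = algebraMap ℂ (BC 𝒰) a * G l'
  have hsymm : ∀ {l l'}, r l l' → r l' l := by
    rintro l l' ⟨a, ha⟩
    have ha0 : algebraMap ℂ (BC 𝒰) a ≠ 0 := by
      intro h
      exact hGne l (by rw [ha, h, zero_mul])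
    refine ⟨a⁻¹, ?_⟩
    rw [ha, map_inv₀, ← mul_assoc, inv_mul_cancel₀ ha0, one_mul]
  have hr : Equivalence r := by
    refine ⟨fun l => ⟨1, by rw [map_one, one_mul]⟩, hsymm, ?_⟩
    rintro a b c ⟨x, hx⟩ ⟨y, hy⟩
    exact ⟨x * y, by rw [hx, hy, map_mul, mul_assoc]⟩
  let st : Setoid J := ⟨r, hr⟩
  have hc' : ∑ l, algebraMap ℂ (BC 𝒰) (c l) * (G l : BC 𝒰) = 0 := by
    have h1 : ∀ l, algebraMap ℂ (BC 𝒰) (c l) * (G l : BC 𝒰) = gC 𝒰 (fun k => c l * g l k) := by
      intro l
      rw [hG, gC_const, ← map_mul]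
      rfl
    rw [Finset.sum_congr rfl fun l _ => h1 l, ← map_sum, gC_zero]
    filter_upwards [hc] with k hk
    rw [Finset.sum_apply]
    exact hk
  -- representatives
  have hrep : ∀ l, ∃ a : ℂ, (G l : BC 𝒰) = algebraMap ℂ (BC 𝒰) a *
      G (Quotient.mk st l).out := fun l => by
    have h1 : st ((Quotient.mk st l).out) l := Quotient.mk_out l
    exact hsymm h1
  choose a ha using hrep
  let e : Fin (Fintype.card (Quotient st)) ≃ Quotient st := (Fintype.equivFin _).symm
  have h1 := unitC 𝒰 hSP S hS (Fintype.card (Quotient st)) (fun q => G (e q).out)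
    (fun q => ⟨u (e q).out, rfl⟩) (by
      intro i j hij b hb
      apply hij
      apply e.injective
      have h2 : st (e i).out (e j).out := ⟨b, hb⟩
      have h3 := Quotient.sound h2
      rwa [Quotient.out_eq, Quotient.out_eq] at h3)
    (fun q => ∑ l with Quotient.mk st l = e q, c l * a l) (by
      rw [← hc']
      have h2 : ∀ l, algebraMap ℂ (BC 𝒰) (c l) * (G l : BC 𝒰) =
          algebraMap ℂ (BC 𝒰) (c l * a l) * G (Quotient.mk st l).out := by
        intro l
        rw [map_mul, mul_assoc, ← ha l]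
      rw [Finset.sum_congr rfl fun l _ => h2 l,
        ← Finset.sum_fiberwise Finset.univ (fun l => Quotient.mk st l), ← e.sum_comp]
      refine Finset.sum_congr rfl fun q _ => ?_
      rw [map_sum, Finset.sum_mul]
      refine Finset.sum_congr rfl fun l hl => ?_
      rw [(Finset.mem_filter.1 hl).2])
  have h2 := congrFun h1 (e.symm (Quotient.mk st j0))
  simp only [Equiv.apply_symm_apply, Pi.zero_apply] at h2
  have hA' : ∀ l, l ∈ A ↔ Quotient.mk st l = Quotient.mk st j0 := by
    intro l
    rw [hA, ← hprop]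
    exact ⟨fun h => Quotient.sound h, fun h => Quotient.exact h⟩
  have h3 : ∀ l ∈ A, algebraMap ℂ (BC 𝒰) (c l) * (G l : BC 𝒰) =
      algebraMap ℂ (BC 𝒰) (c l * a l) * G (Quotient.mk st j0).out := by
    intro l hl
    have h5 := ha l
    rw [(hA' l).1 hl] at h5
    rw [h5, map_mul, mul_assoc]
  have h6 : ∑ l ∈ A, algebraMap ℂ (BC 𝒰) (c l) * (G l : BC 𝒰) = 0 := by
    rw [Finset.sum_congr rfl h3, ← Finset.sum_mul, ← map_sum]
    have h6 : A = Finset.univ.filter fun l => Quotient.mk st l = Quotient.mk st j0 := by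
      ext l
      rw [hA', Finset.mem_filter]
      exact ⟨fun h => ⟨Finset.mem_univ _, h⟩, fun h => h.2⟩
    rw [h6, h2, map_zero, zero_mul]
  have h7 : ∀ l, algebraMap ℂ (BC 𝒰) (c l) * (G l : BC 𝒰) = gC 𝒰 (fun k => c l * g l k) := by
    intro l
    rw [hG, gC_const, ← map_mul]
    rfl
  rw [Finset.sum_congr rfl fun l _ => h7 l, ← map_sum, gC_zero] at h6
  filter_upwards [h6] with k hk
  rw [Finset.sum_apply] at hk
  exact hk

open Module in
/-- **Points at which linear forms in general position are units, up to scaling.** They are contained in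
finitely many linear subspaces `H` with `(dim H - 1) (|J| - s) ≤ s`. -/
theorem subspaces {s : ℕ} (S : Set ℂ) (hS : S.Finite) (T : Set (Fin (s + 1) → ℂ))
    (hT : T.Countable) {J : Type} [Fintype J] (G : J → (Fin (s + 1) → ℂ) →ₗ[ℂ] ℂ)
    (hgen : ∀ B : Finset J, B.card = s + 1 → ∀ z, (∀ l ∈ B, G l z = 0) → z = 0)
    (hu : ∀ t ∈ T, ∀ l l', G l t ≠ 0 ∧ G l' t / G l t ∈ Subring.closure S) :
    ∃ 𝓗 : Finset (Submodule ℂ (Fin (s + 1) → ℂ)),
      (∀ H ∈ 𝓗, (finrank ℂ H - 1) * (Fintype.card J - s) ≤ s) ∧ ∀ t ∈ T, ∃ H ∈ 𝓗, t ∈ H := by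
  classical
  rcases Nat.lt_or_ge s (Fintype.card J) with hJ | hJ
  swap
  · refine ⟨{⊤}, fun H hH => ?_, fun t _ => ⟨⊤, Finset.mem_singleton_self _, trivial⟩⟩
    rw [Nat.sub_eq_zero_of_le hJ, mul_zero]
    exact Nat.zero_le _
  rcases T.eq_empty_or_nonempty with hT0 | hT0
  · exact ⟨∅, by simp, by simp [hT0]⟩
  obtain ⟨Y, hY⟩ := hT.exists_eq_range hT0
  by_contra hcon
  -- the ultrafilter which avoids the subspaces of small dimension
  let good : Submodule ℂ (Fin (s + 1) → ℂ) → Prop := fun H =>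
    (finrank ℂ H - 1) * (Fintype.card J - s) ≤ s
  obtain ⟨𝒰, h𝒰⟩ := Ultrafilter.exists_ultrafilter_of_finite_inter_nonempty
    {A : Set ℕ | ∃ H, good H ∧ A = {k | Y k ∉ H}} (by
      intro 𝒯 h𝒯
      have h1 : ∀ A : 𝒯, ∃ H, good H ∧ (A : Set ℕ) = {k | Y k ∉ H} := fun A => h𝒯 A.2
      choose H hH hA using h1
      by_contra hne
      apply hcon
      refine ⟨Finset.univ.image H, ?_, ?_⟩
      · intro H' hH'
        obtain ⟨A, -, rfl⟩ := Finset.mem_image.1 hH'
        exact hH A
      · intro t ht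
        rw [hY] at ht
        obtain ⟨k, rfl⟩ := ht
        by_contra hno
        apply hne
        refine ⟨k, Set.mem_sInter.2 fun A hA' => ?_⟩
        have h5 : A = {k | Y k ∉ H ⟨A, hA'⟩} := hA ⟨A, hA'⟩
        rw [h5]
        intro hk
        exact hno ⟨_, Finset.mem_image_of_mem H (Finset.mem_univ ⟨A, hA'⟩), hk⟩)
  have hYT : ∀ k, Y k ∈ T := fun k => by rw [hY]; exact ⟨k, rfl⟩
  obtain ⟨l0⟩ : Nonempty J := Fintype.card_pos_iff.1 (by omega)
  let g : J → ℕ → ℂ := fun l k => G l (Y k) / G l0 (Y k)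
  have hg : ∀ l k, g l k ≠ 0 ∧ g l k ∈ Subring.closure S ∧ (g l k)⁻¹ ∈ Subring.closure S := by
    intro l k
    refine ⟨div_ne_zero (hu _ (hYT k) l l).1 (hu _ (hYT k) l0 l).1, (hu _ (hYT k) l0 l).2, ?_⟩
    simp only [g, inv_div]
    exact (hu _ (hYT k) l l0).2
  have hG0 : ∀ k, G l0 (Y k) ≠ 0 := fun k => (hu _ (hYT k) l0 l0).1
  let r : J → J → Prop := fun l l' => ∃ a : ℂ, ∀ᶠ k in (𝒰 : Filter ℕ), g l k = a * g l' k
  have hsymm : ∀ {l l'}, r l l' → r l' l := by
    rintro l l' ⟨a, ha⟩
    have ha0 : a ≠ 0 := by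
      rintro rfl
      obtain ⟨k, hk⟩ := ha.exists
      exact (hg l k).1 (by rw [hk, zero_mul])
    refine ⟨a⁻¹, ?_⟩
    filter_upwards [ha] with k hk
    rw [hk, ← mul_assoc, inv_mul_cancel₀ ha0, one_mul]
  have hr : Equivalence r := by
    refine ⟨fun l => ⟨1, Eventually.of_forall fun k => (one_mul _).symm⟩, hsymm, ?_⟩
    rintro a b c ⟨x, hx⟩ ⟨y, hy⟩
    refine ⟨x * y, ?_⟩
    filter_upwards [hx, hy] with k h1 h2
    rw [h1, h2, mul_assoc]
  let st : Setoid J := ⟨r, hr⟩
  -- the classes are large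
  have hlarge : ∀ q : Quotient st,
      Fintype.card J - s ≤ (Finset.univ.filter fun l => Quotient.mk st l = q).card := by
    intro q
    by_contra hlt
    push Not at hlt
    set C : Finset J := Finset.univ.filter fun l => Quotient.mk st l = q with hC
    have hcc : s + 1 ≤ (Finset.univ \ C).card := by
      rw [Finset.card_sdiff_of_subset (Finset.subset_univ _), Finset.card_univ]
      omega
    obtain ⟨B, hB, hBc⟩ := Finset.exists_subset_card_eq hcc
    let j0 := q.out
    have hj0 : j0 ∈ C := Finset.mem_filter.2 ⟨Finset.mem_univ _, Quotient.out_eq q⟩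
    -- `G j0` is a combination of the forms in `B`
    have hspan : G j0 ∈ Submodule.span ℂ (Set.range fun l : B => G l) := by
      apply mem_span_of_iInf_ker_le_ker
      intro z hz
      have h1 : z = 0 := hgen B hBc z fun l hl => by
        rw [Submodule.mem_iInf] at hz
        exact hz ⟨l, hl⟩
      rw [h1]
      exact Submodule.zero_mem _
    obtain ⟨b, hb⟩ := (Submodule.mem_span_range_iff_exists_fun ℂ).1 hspan
    let c : J → ℂ := fun l => if l = j0 then -1 else if h : l ∈ B then b ⟨l, h⟩ else 0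
    have hj0B : j0 ∉ B := fun h => (Finset.mem_sdiff.1 (hB h)).2 hj0
    have hsum : ∀ z, ∑ l, c l * G l z = 0 := by
      intro z
      have h1 : ∀ l, c l * G l z = (if l = j0 then -G j0 z else 0) +
          (if h : l ∈ B then b ⟨l, h⟩ * G l z else 0) := by
        intro l
        simp only [c]
        by_cases h1 : l = j0
        · subst h1
          rw [if_pos rfl, if_pos rfl, dif_neg hj0B]
          ring
        · rw [if_neg h1, if_neg h1]
          by_cases h2 : l ∈ B
          · rw [dif_pos h2, dif_pos h2, zero_add]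
          · rw [dif_neg h2, dif_neg h2]
            ring
      rw [Finset.sum_congr rfl fun l _ => h1 l, Finset.sum_add_distrib,
        Finset.sum_ite_eq' Finset.univ j0, if_pos (Finset.mem_univ _)]
      have h2 : ∑ l, (if h : l ∈ B then b ⟨l, h⟩ * G l z else 0) =
          ∑ l : B, b l * G l z := by
        rw [← Finset.sum_subset (Finset.subset_univ B)
          (fun l _ hl => dif_neg hl), ← Finset.sum_coe_sort B]
        refine Finset.sum_congr rfl fun l _ => ?_
        rw [dif_pos l.2]
      rw [h2]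
      have h3 := congrArg (fun f => f z) hb
      simp only [LinearMap.sum_apply, LinearMap.smul_apply, smul_eq_mul] at h3
      rw [h3]
      ring
    have hkey := classes S hS g hg 𝒰 c (Eventually.of_forall fun k => by
      have h1 : ∀ l, c l * g l k = (c l * G l (Y k)) / G l0 (Y k) := fun l => by
        simp only [g]
        ring
      rw [Finset.sum_congr rfl fun l _ => h1 l, ← Finset.sum_div, hsum, zero_div]) j0 C
      (fun l => by
        rw [hC, Finset.mem_filter]
        constructor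
        · rintro ⟨-, h⟩
          have h2 : st l q.out := Quotient.exact (h.trans (Quotient.out_eq q).symm)
          exact h2
        · intro h
          refine ⟨Finset.mem_univ _, ?_⟩
          have h2 : st l q.out := h
          exact (Quotient.sound h2).trans (Quotient.out_eq q))
    obtain ⟨k, hk⟩ := hkey.exists
    rw [Finset.sum_eq_single j0] at hk
    · have h1 : c j0 = -1 := if_pos rfl
      rw [h1] at hk
      exact (hg j0 k).1 (by simpa using hk)
    · intro l hl hne
      have h1 : c l = 0 := by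
        simp only [c]
        rw [if_neg hne, dif_neg]
        intro h
        exact (Finset.mem_sdiff.1 (hB h)).2 hl
      rw [h1, zero_mul]
    · intro h
      exact absurd hj0 h
  -- the number of classes
  have hcount : Fintype.card (Quotient st) * (Fintype.card J - s) ≤ Fintype.card J := by
    have h1 : (Finset.univ : Finset J).card =
        ∑ q : Quotient st, (Finset.univ.filter fun l => Quotient.mk st l = q).card :=
      Finset.card_eq_sum_card_fiberwise fun l _ => Finset.mem_univ _
    rw [Finset.card_univ] at h1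
    calc Fintype.card (Quotient st) * (Fintype.card J - s)
        = ∑ q : Quotient st, (Fintype.card J - s) := by
          rw [Finset.sum_const, Finset.card_univ, smul_eq_mul]
      _ ≤ ∑ q : Quotient st, (Finset.univ.filter fun l => Quotient.mk st l = q).card :=
          Finset.sum_le_sum fun q _ => hlarge q
      _ = _ := h1.symm
  -- the subspace
  have hrep : ∀ l, ∃ a : ℂ, ∀ᶠ k in (𝒰 : Filter ℕ), g l k = a * g (Quotient.mk st l).out k := by
    intro l
    have h1 : st ((Quotient.mk st l).out) l := Quotient.mk_out l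
    exact hsymm h1
  choose a ha using hrep
  let H0 : Submodule ℂ (Fin (s + 1) → ℂ) :=
    ⨅ l, LinearMap.ker (G l - a l • G (Quotient.mk st l).out)
  have hH0 : ∀ z, z ∈ H0 ↔ ∀ l, G l z = a l * G (Quotient.mk st l).out z := by
    intro z
    simp only [H0, Submodule.mem_iInf, LinearMap.mem_ker, LinearMap.sub_apply,
      LinearMap.smul_apply, smul_eq_mul, sub_eq_zero]
  have hYH : ∀ᶠ k in (𝒰 : Filter ℕ), Y k ∈ H0 := by
    have h1 : ∀ᶠ k in (𝒰 : Filter ℕ), ∀ l, g l k = a l * g (Quotient.mk st l).out k :=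
      eventually_all.2 ha
    filter_upwards [h1] with k hk
    rw [hH0]
    intro l
    have h2 := hk l
    simp only [g] at h2
    rw [← mul_div_assoc, div_left_inj' (hG0 k)] at h2
    exact h2
  have hdim : finrank ℂ H0 ≤ Fintype.card (Quotient st) := by
    let f : H0 →ₗ[ℂ] (Quotient st → ℂ) := LinearMap.pi fun q => (G q.out).comp H0.subtype
    have hf : Function.Injective f := by
      rw [← LinearMap.ker_eq_bot, LinearMap.ker_eq_bot']
      intro z hz
      obtain ⟨B, -, hB⟩ := Finset.exists_subset_card_eq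
        (show s + 1 ≤ (Finset.univ : Finset J).card by rw [Finset.card_univ]; exact hJ)
      apply Subtype.ext
      refine hgen B hB z fun l _ => ?_
      have h1 := (hH0 z).1 z.2 l
      have h2 : G (Quotient.mk st l).out (z : Fin (s + 1) → ℂ) = 0 :=
        congrFun hz (Quotient.mk st l)
      rw [h1, h2, mul_zero]
    have h1 := LinearMap.finrank_le_finrank_of_injective hf
    rwa [Module.finrank_pi] at h1
  have hgood : good H0 := by
    change (finrank ℂ H0 - 1) * (Fintype.card J - s) ≤ s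
    have h1 : (finrank ℂ H0 - 1) * (Fintype.card J - s) ≤
        (Fintype.card (Quotient st) - 1) * (Fintype.card J - s) :=
      Nat.mul_le_mul_right _ (by omega)
    refine h1.trans ?_
    rw [Nat.sub_mul, one_mul]
    omega
  have h1 : {k | Y k ∉ H0} ∈ 𝒰 := h𝒰 ⟨H0, hgood, rfl⟩
  have h2 : {k | Y k ∈ H0} ∈ 𝒰 := hYH
  obtain ⟨k, hk1, hk2⟩ := 𝒰.nonempty_of_mem (𝒰.inter_mem h1 h2)
  exact hk1 hk2

end Pool.Agent.K6.H79.ZP
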