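import Pool.Agent.K6.H79.ZP.Loc
import Pool.Agent.R424.TG.Hdg

/-!
Families of subsets of `Y(1)^n × G_m^k` over a projective space: the tropical criterion (helper file).
-/

set_option autoImplicit false

namespace Pool.Agent.K6.H79.ZP

open H294ZP UpperHalfPlane MvPolynomial Pool.Agent.W282.ZP Pool.Agent.Y152.RP Pool.Agent.R424.TG
open Pool.Agent.Y152.RP.FamM (NoAtypical SpecialVariety coset rel_of_locus)
open Pool.Agent.R424.FD (toNat_mul')

/-- **The tropical criterion**, if the coefficients are products of powers of the numbers `g h`. -/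
theorem coreM {Λ : Type} [CommRing Λ] (f : Λ →+* ℂ) (K : Subfield ℂ) [Countable K]
    (hK : ∀ a, f a ∈ K) {κ : Type} [Finite κ] {n k₀ N m M : ℕ}
    (supp : κ → Finset (((Fin n ⊕ Fin k₀) ⊕ Fin N) →₀ ℕ))
    (e : Fin M → κ → (((Fin n ⊕ Fin k₀) ⊕ Fin N) →₀ ℕ) → ℕ)
    (X : Set (Fin n ⊕ Fin k₀ → ℂ)) (hX : ∀ x ∈ X, ∀ j, x (Sum.inr j) ≠ 0)
    (hgood : ∀ (r : ℕ) (cls : Fin n → Option (Fin r)) (d : Fin n → ℕ)
      (L : Submodule ℚ (Fin k₀ → ℚ)), (∀ i, 0 < d i) → r + Module.finrank ℚ L + m < n + k₀ →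
      ∀ (ρ : Type) (x : ρ → ℂ), AlgebraicIndependent K x →
        ∃ (V : ValuationSubring ℂ) (b : κ → (((Fin n ⊕ Fin k₀) ⊕ Fin N) →₀ ℕ) → ℂ)
          (g : Fin M → ℂ) (l : Fin M), X ⊆ solutions supp b ∧
          (∀ h, g h ≠ 0 ∧ V.valuation (g h) ≤ 1) ∧ V.valuation (g l) < 1 ∧
          (∀ q, ∀ β ∈ supp q, V.valuation (b q β) = ∏ h, V.valuation (g h) ^ e h q β) ∧
          (∀ a, V.valuation (f a) ≤ 1) ∧ (∀ j, V.valuation (x j) = 1) ∧
          ∀ a : Fin M → ℕ, 0 < a l → (∀ h, 0 < a h → V.valuation (g h) < 1) →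
            ∀ w, (∀ q, TropAt (supp q) (fun β => ∑ h, a h * e h q β) w) →
              ¬ Compatible cls d L w) :
    NoAtypical f K m X := by
  classical
  let _ : Algebra Λ ℂ := f.toAlgebra
  let fK : Λ →+* K := f.codRestrict K hK
  let _ : Algebra Λ K := fK.toAlgebra
  have hst : IsScalarTower Λ K ℂ := IsScalarTower.of_algebraMap_eq fun _ => rfl
  let 𝕜 := algebraicClosure K ℂ
  have hcl : IsAlgClosure K 𝕜 := inferInstance
  have hintalg : ∀ z : ℂ, IsIntegral Λ z → IsAlgebraic K z := fun z hz =>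
    (hz.tower_top (A := K)).isAlgebraic
  refine noAtypical_of_points K _ hX ?_
  intro x hx r Z M' η hη hxZ hxC S hS
  have hx0 : ∀ j, x (Sum.inr j) ≠ 0 := hX x hx
  have hSk : AlgebraicIndependent 𝕜 (fun i : S => x i) := algInd_closure le_rfl hS
  have hd : ∀ i, 0 < (Z.mat i).det.toNat := fun i => by
    have := Z.det_pos i
    omega
  have hrel : ∀ i j l, Z.cls i = some l → Z.cls j = some l →
      IsIntegral (Algebra.adjoin ℤ {x (Sum.inl i)}) (x (Sum.inl j)) ∧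
      Polynomial.eval₂ (Polynomial.aeval (x (Sum.inl i)) : Polynomial ℂ →ₐ[ℂ] ℂ).toRingHom
        (x (Sum.inl j)) (W282.ZP.Psi ((Z.mat i).det.toNat * (Z.mat j).det.toNat)) = 0 := by
    intro i j l hi hj
    have h5 := rel_of_locus Z hxZ i j l hi hj
    rw [toNat_mul' (Z.det_pos i) (Z.det_pos j)] at h5
    exact h5
  have h1 : ∀ i, Z.cls i = none → IsIntegral Λ (x (Sum.inl i)) := by
    intro i hi
    obtain ⟨z, hz⟩ := hxZ
    have h2 : x (Sum.inl i) = Z.const i := (hz i).1 hi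
    rw [h2]
    rcases Z.allowed i with ⟨τ, hτ, hc⟩ | h
    · rw [hc]
      exact (singular_modulus_integral τ hτ).tower_top
    · exact h
  have hηint : ∀ j, IsIntegral Λ (η j) ∧ IsIntegral Λ (η j)⁻¹ := fun j =>
    ⟨(hη j).2.1, (hη j).2.2⟩
  have hk : ∀ z : ℂ, IsAlgebraic K z → ∃ u : 𝕜, z = algebraMap 𝕜 ℂ u := fun z hz =>
    ⟨⟨z, mem_algebraicClosure_iff.2 hz⟩, rfl⟩
  obtain ⟨r', cls', M₁, hr', hcls', hV'⟩ := reduce (Λ := 𝕜) (F := 𝕜) Z.cls
    (fun i => (Z.mat i).det.toNat) x M' η hd (fun i hi => by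
      obtain ⟨u, hu⟩ := hk _ (hintalg _ (h1 i hi))
      rw [hu]
      exact isAlgebraic_algebraMap u) hrel hx0
    (fun j => hk _ (hintalg _ (hηint j).1))
    hxC.2 S hSk hSk
  by_contra hcon
  push Not at hcon
  have hrank := Pool.Agent.Y199.ZF.finrank_perp M₁
  obtain ⟨V, b, g, l, hXb, hg, hgl, hVb, hVΛ, hVx, hno⟩ := hgood r' cls'
    (fun i => (Z.mat i).det.toNat) (Pool.Agent.Y199.ZF.perp M₁) hd (by omega) S
    (fun i : S => x i) hS
  obtain ⟨-, y, hy⟩ := hXb hx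
  obtain ⟨hc1, hc2⟩ := hV' V (fun i hi => TH526.ZL.mem_of_int V hVΛ (h1 i hi)) hVx (fun j => by
    refine le_antisymm (TH526.ZL.mem_of_int V hVΛ (hηint j).1) ?_
    have h5 := TH526.ZL.mem_of_int V hVΛ (hηint j).2
    rw [map_inv₀] at h5
    have h6 : V.valuation (η j) ≠ 0 := (Valuation.ne_zero_iff _).2 (hη j).1
    exact (inv_le_one₀ (zero_lt_iff.2 h6)).1 h5)
  obtain ⟨a, w, ha, ha', hw1, hw2⟩ := compat_pointM V g (fun h => (hg h).1) (fun h => (hg h).2) l hgl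
    supp b e hVb (Sum.elim x y) hy cls'
    (fun i => (Z.mat i).det.toNat) hd hc1
    (fun i j c hi hj => by
      obtain ⟨c', hi', hj'⟩ := hcls' i j c hi hj
      exact (hrel i j c' hi' hj').2) hx0 M₁ hc2
  exact hno a ha ha' w hw1 hw2

/-- The value of a polynomial in the parameters at `t`. -/
noncomputable def evalT {K : Subfield ℂ} {s : ℕ} (t : Fin (s + 1) → ℂ) :
    MvPolynomial (Fin (s + 1)) K →+* ℂ :=
  eval₂Hom (algebraMap K ℂ) t

/-- `t` is a vector of homogeneous coordinates of a point of the projective variety with the ideal `𝔭`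
(or the zero vector). -/
def InBase {s : ℕ} (𝔭 : Ideal (MvPolynomial (Fin (s + 1)) ℂ)) (t : Fin (s + 1) → ℂ) : Prop :=
  ∀ p ∈ 𝔭, eval t p = 0

/-- The hypersurfaces `G h = 0`, `h ∈ A`, have a common point outside of the hypersurfaces `G h = 0`,
`h ∈ U`, on the projective variety which is the closure over `K` of the variety with the ideal `𝔭`
(this is the variety itself, if it is defined over `K`). -/
def Meet {K : Subfield ℂ} {s M : ℕ} (𝔭 : Ideal (MvPolynomial (Fin (s + 1)) ℂ))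
    (G : Fin M → MvPolynomial (Fin (s + 1)) K) (U : Finset (Fin M)) (A : Set (Fin M)) : Prop :=
  ∃ z : Fin (s + 1) → ℂ, z ≠ 0 ∧
    (∀ p : MvPolynomial (Fin (s + 1)) K, map (algebraMap K ℂ) p ∈ 𝔭 → evalT z p = 0) ∧
    (∀ h ∈ U, evalT z (G h) ≠ 0) ∧ ∀ h ∈ A, evalT z (G h) = 0

/-- The special subvarieties of the type `(cls, d, L)` do not occur near to the hypersurface
`G l = 0` of the variety with the ideal `𝔭`: for all weights `a h ≥ 0` of the hypersurfaces, such that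
`a l > 0` and the hypersurfaces with `a h > 0` have a common point outside of the hypersurfaces
`G h = 0`, `h ∈ U`, the tropicalization of the system with the exponents `supp` and coefficients of the
orders `∑ h, a h * e h q β` has no compatible point. -/
def Excluded {K : Subfield ℂ} {s M n k N r : ℕ} {κ : Type}
    (supp : κ → Finset (((Fin n ⊕ Fin k) ⊕ Fin N) →₀ ℕ))
    (e : Fin M → κ → (((Fin n ⊕ Fin k) ⊕ Fin N) →₀ ℕ) → ℕ)
    (𝔭 : Ideal (MvPolynomial (Fin (s + 1)) ℂ))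
    (G : Fin M → MvPolynomial (Fin (s + 1)) K) (U : Finset (Fin M)) (cls : Fin n → Option (Fin r))
    (d : Fin n → ℕ) (L : Submodule ℚ (Fin k → ℚ)) (l : Fin M) : Prop :=
  ∀ a : Fin M → ℕ, 0 < a l → Meet 𝔭 G U {h | 0 < a h} →
    ∀ w, (∀ q, TropAt (supp q) (fun β => ∑ h, a h * e h q β) w) → ¬ Compatible cls d L w

/-- The coordinates of `t` divided by `G l (t)` are in the ring `R` for `l ∈ U` (divided by a root of
`G l (t)`, if `G l` is not linear): `t` is an integral point of the complement of the hypersurfaces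
`G l = 0`, `l ∈ U`. -/
def IntegralAt {K : Subfield ℂ} {s M : ℕ} (G : Fin M → MvPolynomial (Fin (s + 1)) K)
    (δ : Fin M → ℕ) (U : Finset (Fin M)) (R : Subring ℂ) (t : Fin (s + 1) → ℂ) : Prop :=
  ∀ l ∈ U, ∀ i, t i ^ δ l / evalT t (G l) ∈ R

/-- The member at `t` of a family of subsets of `Y(1)^n × G_m^k`. -/
def memberM {K : Subfield ℂ} {s n k N : ℕ} {κ : Type} (t : Fin (s + 1) → ℂ)
    (P : κ → MvPolynomial ((Fin n ⊕ Fin k) ⊕ Fin N) (MvPolynomial (Fin (s + 1)) K)) :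
    Set (Fin n ⊕ Fin k → ℂ) :=
  solutions (fun q => (P q).support) fun q β => evalT t ((P q).coeff β)

/-- There are places of the complex numbers at which `c` has a smaller value than the `δ`-th power of
one of the coordinates of `t`, with given elements of `W` in the valuation ring, and such that numbers
which are algebraically independent over `K₁` are units. -/
def Near {K : Subfield ℂ} {s : ℕ} (W : Set K) (K₁ : Subfield ℂ) (t : Fin (s + 1) → ℂ) (δ : ℕ)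
    (c : ℂ) : Prop :=
  ∀ (ρ : Type) (x : ρ → ℂ), AlgebraicIndependent K₁ x →
    ∃ (V : ValuationSubring ℂ) (i₀ : Fin (s + 1)), (∀ z ∈ W, (z : ℂ) ∈ V) ∧ t i₀ ≠ 0 ∧
      (∀ i, V.valuation (t i) ≤ V.valuation (t i₀)) ∧ V.valuation c < V.valuation (t i₀) ^ δ ∧
      ∀ j, V.valuation (x j) = 1

section

variable {K : Subfield ℂ} {s : ℕ}

theorem evalT_eq (t : Fin (s + 1) → ℂ) (p : MvPolynomial (Fin (s + 1)) K) :
    evalT t p = ∑ m ∈ p.support, ((p.coeff m : K) : ℂ) * ∏ i, t i ^ m i := by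
  rw [evalT, coe_eval₂Hom, eval₂_eq']
  rfl

theorem evalT_mem (R : Subring ℂ) {t : Fin (s + 1) → ℂ} (ht : ∀ i, t i ∈ R)
    {p : MvPolynomial (Fin (s + 1)) K} (hp : ∀ m ∈ p.support, ((p.coeff m : K) : ℂ) ∈ R) :
    evalT t p ∈ R := by
  rw [evalT_eq]
  exact sum_mem fun m hm => mul_mem (hp m hm) (prod_mem fun i _ => pow_mem (ht i) _)

theorem evalT_div {t : Fin (s + 1) → ℂ} {p : MvPolynomial (Fin (s + 1)) K} {δ : ℕ}
    (hp : p.IsHomogeneous δ) (c : ℂ) : evalT (fun i => t i / c) p = evalT t p / c ^ δ := by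
  rw [evalT_eq, evalT_eq, Finset.sum_div]
  refine Finset.sum_congr rfl fun m hm => ?_
  have h1 : ∑ i, m i = δ := by
    have h2 := hp (mem_support_iff.1 hm)
    rw [Finsupp.weight_apply, Finsupp.sum_fintype _ _ (fun _ => by simp)] at h2
    simpa using h2
  rw [mul_div_assoc]
  congr 1
  have h3 : ∀ i, (t i / c) ^ m i = t i ^ m i / c ^ m i := fun i => div_pow _ _ _
  rw [Finset.prod_congr rfl fun i _ => h3 i, Finset.prod_div_distrib,
    Finset.prod_pow_eq_pow_sum, h1]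

theorem inBase_div {𝔭 : Ideal (MvPolynomial (Fin (s + 1)) ℂ)}
    (h𝔭 : ∀ p ∈ 𝔭, ∀ i, homogeneousComponent i p ∈ 𝔭) {t : Fin (s + 1) → ℂ} (ht : InBase 𝔭 t)
    (c : ℂ) : InBase 𝔭 fun i => t i / c := by
  intro p hp
  have h1 : ∀ (q : MvPolynomial (Fin (s + 1)) ℂ) (j : ℕ), q.IsHomogeneous j →
      eval (fun i => t i / c) q = (c⁻¹) ^ j * eval t q := by
    intro q j hq
    rw [eval_eq', eval_eq', Finset.mul_sum]
    refine Finset.sum_congr rfl fun m hm => ?_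
    have h1 : ∑ i, m i = j := by
      have h2 := hq (mem_support_iff.1 hm)
      rw [Finsupp.weight_apply, Finsupp.sum_fintype _ _ (fun _ => by simp)] at h2
      simpa using h2
    have h3 : ∀ i, (t i / c) ^ m i = (c⁻¹) ^ m i * t i ^ m i := fun i => by
      rw [div_eq_mul_inv, mul_pow, mul_comm]
    rw [Finset.prod_congr rfl fun i _ => h3 i, Finset.prod_mul_distrib,
      Finset.prod_pow_eq_pow_sum, h1]
    ring
  rw [← sum_homogeneousComponent p, map_sum]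
  refine Finset.sum_eq_zero fun i _ => ?_
  rw [h1 _ i (homogeneousComponent_isHomogeneous _ _), ht _ (h𝔭 p hp i), mul_zero]

/-- The projective Nullstellensatz. -/
theorem null {M : ℕ} (𝔭 : Ideal (MvPolynomial (Fin (s + 1)) ℂ))
    (G : Fin M → MvPolynomial (Fin (s + 1)) K) (U A : Finset (Fin M))
    (h : ¬ Meet 𝔭 G U (A : Set (Fin M))) (i : Fin (s + 1)) :
    ∃ (N : ℕ) (Q : Fin M → MvPolynomial (Fin (s + 1)) K) (r : MvPolynomial (Fin (s + 1)) K),
      map (algebraMap K ℂ) r ∈ 𝔭 ∧ (X i * ∏ u ∈ U, G u) ^ N = ∑ l ∈ A, Q l * G l + r := by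
  classical
  let I₁ : Ideal (MvPolynomial (Fin (s + 1)) K) := Ideal.span (G '' (A : Set (Fin M)))
  let I₂ : Ideal (MvPolynomial (Fin (s + 1)) K) := 𝔭.comap (map (algebraMap K ℂ))
  have h1 : (X i * ∏ u ∈ U, G u : MvPolynomial (Fin (s + 1)) K) ∈ (I₁ ⊔ I₂).radical := by
    rw [← vanishingIdeal_zeroLocus_eq_radical (K := ℂ)]
    rw [mem_vanishingIdeal_iff]
    intro z hz
    rw [mem_zeroLocus_iff] at hz
    rw [map_mul, map_prod, aeval_X]
    by_cases h2 : z = 0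
    · rw [h2, Pi.zero_apply, zero_mul]
    by_cases h4 : ∀ u ∈ U, evalT z (G u) ≠ 0
    · refine absurd ⟨z, h2, fun p hp => ?_, h4, fun l hl => ?_⟩ h
      · exact hz p (Ideal.mem_sup_right (Ideal.mem_comap.2 hp))
      · exact hz (G l) (Ideal.mem_sup_left (Ideal.subset_span ⟨l, hl, rfl⟩))
    · push Not at h4
      obtain ⟨u, hu, hu0⟩ := h4
      rw [Finset.prod_eq_zero hu hu0, mul_zero]
  obtain ⟨N, hN⟩ := h1
  obtain ⟨x, hx, r, hr, hxr⟩ := Submodule.mem_sup.1 hN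
  have h3 : x ∈ Submodule.span (MvPolynomial (Fin (s + 1)) K) (G '' (A : Set (Fin M))) := hx
  rw [Submodule.mem_span_image_finset_iff_exists_fun'] at h3
  obtain ⟨Q, hQ⟩ := h3
  refine ⟨N, Q, r, Ideal.mem_comap.1 hr, ?_⟩
  rw [← hxr, ← hQ]
  rfl

/-- The position of points near to the hypersurfaces. -/
theorem exists_W {M : ℕ} (𝔭 : Ideal (MvPolynomial (Fin (s + 1)) ℂ))
    (G : Fin M → MvPolynomial (Fin (s + 1)) K) (U : Finset (Fin M)) (C₀ : Finset K) :
    ∃ W : Finset K, C₀ ⊆ W ∧ (∀ h, ∀ m ∈ (G h).support, (G h).coeff m ∈ W) ∧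
      ∀ (V : ValuationSubring ℂ) (t : Fin (s + 1) → ℂ) (i₀ : Fin (s + 1)), InBase 𝔭 t →
        (∀ z ∈ W, (z : ℂ) ∈ V) → (∀ i, t i ∈ V) → t i₀ = 1 →
        (∀ h, V.valuation (evalT t (G h)) ≤ 1) ∧
          ((∀ h ∈ U, V.valuation (evalT t (G h)) = 1) →
            Meet 𝔭 G U {h | V.valuation (evalT t (G h)) < 1}) := by
  classical
  have h1 : ∀ (A : Finset (Fin M)) (i : Fin (s + 1)),
      ∃ (N : ℕ) (Q : Fin M → MvPolynomial (Fin (s + 1)) K) (r : MvPolynomial (Fin (s + 1)) K),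
        ¬ Meet 𝔭 G U (A : Set (Fin M)) →
          map (algebraMap K ℂ) r ∈ 𝔭 ∧ (X i * ∏ u ∈ U, G u) ^ N = ∑ l ∈ A, Q l * G l + r := by
    intro A i
    by_cases h : Meet 𝔭 G U (A : Set (Fin M))
    · exact ⟨0, 0, 0, fun h' => absurd h h'⟩
    · obtain ⟨N, Q, r, hr, hQ⟩ := null 𝔭 G U A h i
      exact ⟨N, Q, r, fun _ => ⟨hr, hQ⟩⟩
  choose N Q r hQ using h1
  let cf : MvPolynomial (Fin (s + 1)) K → Finset K := fun p => p.support.image fun m => p.coeff m
  let W : Finset K := C₀ ∪ (Finset.univ.biUnion fun h => cf (G h)) ∪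
    Finset.univ.biUnion fun p : Finset (Fin M) × Fin (s + 1) × Fin M => cf (Q p.1 p.2.1 p.2.2)
  have hWG : ∀ h, ∀ m ∈ (G h).support, (G h).coeff m ∈ W := fun h m hm =>
    Finset.mem_union_left _ (Finset.mem_union_right _ (Finset.mem_biUnion.2
      ⟨h, Finset.mem_univ _, Finset.mem_image_of_mem _ hm⟩))
  have hWQ : ∀ A i l, ∀ m ∈ (Q A i l).support, (Q A i l).coeff m ∈ W := fun A i l m hm =>
    Finset.mem_union_right _ (Finset.mem_biUnion.2
      ⟨(A, i, l), Finset.mem_univ _, Finset.mem_image_of_mem _ hm⟩)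
  refine ⟨W, fun z hz => Finset.mem_union_left _ (Finset.mem_union_left _ hz), hWG,
    fun V t i₀ htb hV ht ht0 => ?_⟩
  have hle : ∀ h, V.valuation (evalT t (G h)) ≤ 1 := fun h =>
    (ValuationSubring.valuation_le_one_iff _ _).2
      (evalT_mem V.toSubring ht fun m hm => hV _ (hWG h m hm))
  refine ⟨hle, fun hU => ?_⟩
  let A : Finset (Fin M) := Finset.univ.filter fun h => V.valuation (evalT t (G h)) < 1
  have hA : (A : Set (Fin M)) = {h | V.valuation (evalT t (G h)) < 1} := by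
    ext h
    simp [A]
  rw [← hA]
  by_contra hno
  obtain ⟨hr, hQ'⟩ := hQ A i₀ hno
  have h2 := congrArg (evalT t) hQ'
  have h3 : V.valuation (evalT t ((X i₀ * ∏ u ∈ U, G u) ^ N A i₀)) = 1 := by
    have h6 : evalT t (X i₀ : MvPolynomial (Fin (s + 1)) K) = 1 := by
      rw [evalT, coe_eval₂Hom, eval₂_X, ht0]
    rw [map_pow, map_pow, map_mul, h6, one_mul, map_prod, map_prod,
      Finset.prod_eq_one fun u hu => hU u hu, one_pow]
  have h5 : evalT t (r A i₀) = 0 := by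
    rw [← htb _ hr]
    exact (eval_map _ _ _).symm
  rw [map_add, h5, add_zero, map_sum] at h2
  have h4 : V.valuation (∑ l ∈ A, evalT t (Q A i₀ l * G l)) < 1 := by
    refine Valuation.map_sum_lt _ one_ne_zero fun l hl => ?_
    rw [map_mul, map_mul]
    refine (mul_le_of_le_one_left' ?_).trans_lt (Finset.mem_filter.1 hl).2
    exact (ValuationSubring.valuation_le_one_iff _ _).2
      (evalT_mem V.toSubring ht fun m hm => hV _ (hWQ A i₀ l m hm))
  rw [← h2, h3] at h4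
  exact lt_irrefl _ h4

end

/-- **The tropical criterion** for the members of a family over a projective space. -/
theorem coreW (K : Subfield ℂ) {κ : Type} [Finite κ] {n k N m s M : ℕ}
    (𝔭 : Ideal (MvPolynomial (Fin (s + 1)) ℂ)) (h𝔭 : ∀ p ∈ 𝔭, ∀ i, homogeneousComponent i p ∈ 𝔭)
    (P : κ → MvPolynomial ((Fin n ⊕ Fin k) ⊕ Fin N) (MvPolynomial (Fin (s + 1)) K))
    (hhom : ∀ q, ∃ ε, ∀ β ∈ (P q).support, ((P q).coeff β).IsHomogeneous ε)
    (G : Fin M → MvPolynomial (Fin (s + 1)) K) (δ : Fin M → ℕ) (hG : ∀ h, (G h).IsHomogeneous (δ h))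
    (e : Fin M → κ → (((Fin n ⊕ Fin k) ⊕ Fin N) →₀ ℕ) → ℕ)
    (hfac : ∀ q, ∀ β ∈ (P q).support, ∃ c : K, c ≠ 0 ∧
      map (algebraMap K ℂ) ((P q).coeff β - C c * ∏ h, G h ^ e h q β) ∈ 𝔭)
    (Γ F : Finset ℂ) (hΓ : ∀ γ ∈ Γ, γ ∈ K) (hF : ∀ z ∈ F, z ∈ K) (U : Finset (Fin M)) :
    ∃ W : Finset K, (∀ h, ∀ m ∈ (G h).support, (G h).coeff m ∈ W) ∧
      (∀ z (hz : z ∈ F), (⟨z, hF z hz⟩ : K) ∈ W) ∧
      ∀ (t : Fin (s + 1) → ℂ) (K₁ : Subfield ℂ) [Countable K₁], K ≤ K₁ → InBase 𝔭 t →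
      (∀ h, evalT t (G h) ≠ 0) → IntegralAt G δ U (Subring.closure (F : Set ℂ)) t →
      (∀ (r : ℕ) (cls : Fin n → Option (Fin r)) (d : Fin n → ℕ) (L : Submodule ℚ (Fin k → ℚ)),
        (∀ i, 0 < d i) → r + Module.finrank ℚ L + m < n + k →
          ∃ l, Excluded (fun q => (P q).support) e 𝔭 G U cls d L l ∧
            Near (W : Set K) K₁ t (δ l) (evalT t (G l))) →
      NoAtypical (algebraMap (Algebra.adjoin ℤ (Γ : Set ℂ)) ℂ) K₁ m (memberM t P) := by
  classical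
  have := Fintype.ofFinite κ
  have h1 : ∀ (q : κ) (β : {β // β ∈ (P q).support}), ∃ c : K, c ≠ 0 ∧
      map (algebraMap K ℂ) ((P q).coeff β.1 - C c * ∏ h, G h ^ e h q β.1) ∈ 𝔭 :=
    fun q β => hfac q β.1 β.2
  choose c hc0 hc using h1
  let C₀ : Finset K := ((Finset.univ.image fun p : Σ q : κ, {β // β ∈ (P q).support} =>
      c p.1 p.2) ∪
    (Finset.univ.image fun p : Σ q : κ, {β // β ∈ (P q).support} => (c p.1 p.2)⁻¹)) ∪
    ((Γ.attach.image fun γ => (⟨γ.1, hΓ γ.1 γ.2⟩ : K)) ∪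
      F.attach.image fun γ => (⟨γ.1, hF γ.1 γ.2⟩ : K))
  obtain ⟨W, hCW, hWG, hW⟩ := exists_W 𝔭 G U C₀
  choose ε hε using hhom
  have hFW : ∀ z (hz : z ∈ F), (⟨z, hF z hz⟩ : K) ∈ W := fun z hz =>
    hCW (Finset.mem_union_right _ (Finset.mem_union_right _
      (Finset.mem_image.2 ⟨⟨z, hz⟩, Finset.mem_attach _ _, rfl⟩)))
  refine ⟨W, hWG, hFW, fun t K₁ _ hK htb ht0 hint hgood => ?_⟩
  have hΓK₁ : ∀ a : Algebra.adjoin ℤ (Γ : Set ℂ),
      algebraMap (Algebra.adjoin ℤ (Γ : Set ℂ)) ℂ a ∈ K₁ := by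
    intro a
    have hle : Algebra.adjoin ℤ (Γ : Set ℂ) ≤ subalgebraOfSubring K₁.toSubring :=
      Algebra.adjoin_le fun γ hγ => hK (hΓ γ hγ)
    exact hle a.2
  refine coreM _ K₁ hΓK₁ (fun q => (P q).support) e _ (fun x hx => hx.1)
    fun r cls d L hd hr ρ x hx => ?_
  obtain ⟨l, hl2, hl3⟩ := hgood r cls d L hd hr
  obtain ⟨V, i₀, hVW, hti₀, hti, hVl, hVx⟩ := hl3 ρ x hx
  have hv0 : V.valuation (t i₀) ≠ 0 := (Valuation.ne_zero_iff _).2 hti₀
  let t' : Fin (s + 1) → ℂ := fun i => t i / t i₀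
  have ht' : ∀ i, t' i ∈ V := by
    intro i
    rw [← ValuationSubring.valuation_le_one_iff]
    simp only [t', map_div₀]
    exact div_le_one_of_le₀ (hti i) zero_le
  have ht'1 : t' i₀ = 1 := div_self hti₀
  obtain ⟨hle, hmeet⟩ := hW V t' i₀ (inBase_div h𝔭 htb _) hVW ht' ht'1
  have hgG : ∀ h, evalT t' (G h) = evalT t (G h) / t i₀ ^ δ h := fun h => evalT_div (hG h) _
  have hFV : Subring.closure (F : Set ℂ) ≤ V.toSubring :=
    Subring.closure_le.2 fun z hz => hVW ⟨z, hF z hz⟩ (hFW z hz)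
  have hU1 : ∀ h ∈ U, V.valuation (evalT t' (G h)) = 1 := by
    intro h hh
    refine le_antisymm (hle h) ?_
    have h2 : t i₀ ^ δ h / evalT t (G h) ∈ V := hFV (hint h hh i₀)
    rw [← ValuationSubring.valuation_le_one_iff] at h2
    have h3 : evalT t' (G h) = (t i₀ ^ δ h / evalT t (G h))⁻¹ := by rw [hgG, inv_div]
    have h4 : t i₀ ^ δ h / evalT t (G h) ≠ 0 := div_ne_zero (pow_ne_zero _ hti₀) (ht0 h)
    rw [h3, map_inv₀]
    exact (one_le_inv₀ (zero_lt_iff.2 ((Valuation.ne_zero_iff _).2 h4))).2 h2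
  refine ⟨V, fun q β => evalT t' ((P q).coeff β), fun h => evalT t' (G h), l, ?_, fun h => ⟨?_, hle h⟩,
    ?_, fun q β hβ => ?_, fun a => ?_, hVx, fun a hal ha w hw => ?_⟩
  · rintro y ⟨hy0, z, hz⟩
    refine ⟨hy0, z, fun q => ?_⟩
    have h2 : ∀ β ∈ (P q).support, evalT t' ((P q).coeff β) * ∏ i,
        (Sum.elim y z : (Fin n ⊕ Fin k) ⊕ Fin N → ℂ) i ^ β i = (evalT t ((P q).coeff β) * ∏ i,
        (Sum.elim y z : (Fin n ⊕ Fin k) ⊕ Fin N → ℂ) i ^ β i) / t i₀ ^ ε q := by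
      intro β hβ
      rw [show evalT t' ((P q).coeff β) = evalT t ((P q).coeff β) / t i₀ ^ ε q from
        evalT_div (hε q β hβ) _]
      ring
    rw [Finset.sum_congr rfl h2, ← Finset.sum_div, hz q, zero_div]
  · change evalT t' (G h) ≠ 0
    rw [hgG]
    exact div_ne_zero (ht0 h) (pow_ne_zero _ hti₀)
  · change V.valuation (evalT t' (G l)) < 1
    rw [hgG, map_div₀, map_pow]
    exact (div_lt_one₀ (zero_lt_iff.2 (pow_ne_zero _ hv0))).2 hVl
  · change V.valuation (evalT t' ((P q).coeff β)) = _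
    have h2 : evalT t' ((P q).coeff β) = evalT t' (C (c q ⟨β, hβ⟩) * ∏ h, G h ^ e h q β) := by
      have h3 := inBase_div h𝔭 htb (t i₀) _ (hc q ⟨β, hβ⟩)
      rw [eval_map] at h3
      have h4 : evalT t' ((P q).coeff β - C (c q ⟨β, hβ⟩) * ∏ h, G h ^ e h q β) = 0 := h3
      rwa [map_sub, sub_eq_zero] at h4
    rw [h2, map_mul, map_mul, map_prod, map_prod]
    have h3 : evalT t' (C (c q ⟨β, hβ⟩) : MvPolynomial (Fin (s + 1)) K) = (c q ⟨β, hβ⟩ : ℂ) := by
      rw [evalT, coe_eval₂Hom, eval₂_C]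
      rfl
    have h4 : V.valuation ((c q ⟨β, hβ⟩ : K) : ℂ) = 1 := by
      have h5 : ((c q ⟨β, hβ⟩ : K) : ℂ) ∈ V := hVW _ (hCW (Finset.mem_union_left _
        (Finset.mem_union_left _ (Finset.mem_image.2 ⟨⟨q, ⟨β, hβ⟩⟩, Finset.mem_univ _, rfl⟩))))
      have h6 : (((c q ⟨β, hβ⟩)⁻¹ : K) : ℂ) ∈ V := hVW _ (hCW (Finset.mem_union_left _
        (Finset.mem_union_right _ (Finset.mem_image.2 ⟨⟨q, ⟨β, hβ⟩⟩, Finset.mem_univ _, rfl⟩))))
      have h7 : ((c q ⟨β, hβ⟩ : K) : ℂ) ≠ 0 := by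
        exact_mod_cast hc0 q ⟨β, hβ⟩
      refine le_antisymm ((ValuationSubring.valuation_le_one_iff _ _).2 h5) ?_
      have h8 := (ValuationSubring.valuation_le_one_iff _ _).2 h6
      push_cast at h8
      rw [map_inv₀] at h8
      exact (inv_le_one₀ (zero_lt_iff.2 ((Valuation.ne_zero_iff _).2 h7))).1 h8
    rw [h3, h4, one_mul]
    refine Finset.prod_congr rfl fun h _ => ?_
    rw [map_pow, map_pow]
  · rw [ValuationSubring.valuation_le_one_iff]
    have hle : Algebra.adjoin ℤ (Γ : Set ℂ) ≤ subalgebraOfSubring V.toSubring :=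
      Algebra.adjoin_le fun γ hγ => hVW ⟨γ, hΓ γ hγ⟩ (hCW (Finset.mem_union_right _
        (Finset.mem_union_left _ (Finset.mem_image.2 ⟨⟨γ, hγ⟩, Finset.mem_attach _ _, rfl⟩))))
    exact hle a.2
  · refine hl2 a hal ?_ w hw
    obtain ⟨z, hz0, hzb, hzU, hz⟩ := hmeet hU1
    exact ⟨z, hz0, hzb, hzU, fun h hh => hz h (ha h hh)⟩

end Pool.Agent.K6.H79.ZP
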