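import Pool.Agent.K6.H79.ZP.Main
import Pool.Agent.Y152.RP.MixCore

/-!
Families of scaled images in `Y(1)^n × G_m^k` over a projective variety (helper file).
-/

set_option autoImplicit false

namespace Pool.Agent.K6.H79.ZP

open H294ZP UpperHalfPlane MvPolynomial Pool.Agent.W282.ZP Pool.Agent.Y152.RP Pool.Agent.R424.TG
open Pool.Agent.Y152.RP.FamM (NoAtypical SpecialVariety coset rel_of_locus)
open Pool.Agent.R424.FD (toNat_mul')

section

variable {K : Subfield ℂ} {s N : ℕ}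

/-- The value at the parameter `t` and the point `y` of a polynomial. -/
noncomputable def evalTY (t : Fin (s + 1) → ℂ) (y : Fin (N + 1) → ℂ) :
    MvPolynomial (Fin (N + 1)) (MvPolynomial (Fin (s + 1)) K) →+* ℂ :=
  eval₂Hom (evalT t) y

/-- `P` is homogeneous of degree `α` in the parameters, and of degree `d` in the variables. -/
def BiHom (P : MvPolynomial (Fin (N + 1)) (MvPolynomial (Fin (s + 1)) K)) (α d : ℕ) : Prop :=
  P.IsHomogeneous d ∧ ∀ β ∈ P.support, (P.coeff β).IsHomogeneous α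

theorem evalTY_eq (t : Fin (s + 1) → ℂ) (y : Fin (N + 1) → ℂ)
    (P : MvPolynomial (Fin (N + 1)) (MvPolynomial (Fin (s + 1)) K)) :
    evalTY t y P = ∑ β ∈ P.support, evalT t (P.coeff β) * ∏ i, y i ^ β i := by
  rw [evalTY, coe_eval₂Hom, eval₂_eq']

theorem evalTY_div {t : Fin (s + 1) → ℂ} {y : Fin (N + 1) → ℂ}
    {P : MvPolynomial (Fin (N + 1)) (MvPolynomial (Fin (s + 1)) K)} {α d : ℕ} (hP : BiHom P α d)
    (a b : ℂ) :
    evalTY (fun i => t i / a) (fun j => y j / b) P = evalTY t y P / (a ^ α * b ^ d) := by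
  rw [evalTY_eq, evalTY_eq, Finset.sum_div]
  refine Finset.sum_congr rfl fun β hβ => ?_
  rw [evalT_div (hP.2 β hβ)]
  have h1 : ∑ i, β i = d := by
    have h2 := hP.1 (mem_support_iff.1 hβ)
    rw [Finsupp.weight_apply, Finsupp.sum_fintype _ _ (fun _ => by simp)] at h2
    simpa using h2
  have h3 : ∀ i, (y i / b) ^ β i = y i ^ β i / b ^ β i := fun i => div_pow _ _ _
  rw [Finset.prod_congr rfl fun i _ => h3 i, Finset.prod_div_distrib,
    Finset.prod_pow_eq_pow_sum, h1, div_mul_div_comm]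

/-- All coefficients of `P`. -/
noncomputable def coefs (P : MvPolynomial (Fin (N + 1)) (MvPolynomial (Fin (s + 1)) K)) :
    Finset K := by
  classical
  exact P.support.biUnion fun β => (P.coeff β).support.image fun m => (P.coeff β).coeff m

theorem evalTY_mem (R : Subring ℂ) {t : Fin (s + 1) → ℂ} {y : Fin (N + 1) → ℂ} (ht : ∀ i, t i ∈ R)
    (hy : ∀ j, y j ∈ R) {P : MvPolynomial (Fin (N + 1)) (MvPolynomial (Fin (s + 1)) K)}
    (hP : ∀ z ∈ coefs P, (z : ℂ) ∈ R) : evalTY t y P ∈ R := by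
  classical
  rw [evalTY_eq]
  refine sum_mem fun β hβ => mul_mem (evalT_mem R ht fun m hm => hP _ ?_)
    (prod_mem fun i _ => pow_mem (hy i) _)
  exact Finset.mem_biUnion.2 ⟨β, hβ, Finset.mem_image_of_mem _ hm⟩

/-- The polynomial in all variables. -/
noncomputable def flat' :
    MvPolynomial (Fin (N + 1)) (MvPolynomial (Fin (s + 1)) K) →+*
      MvPolynomial (Fin (N + 1) ⊕ Fin (s + 1)) K :=
  eval₂Hom (rename Sum.inr : MvPolynomial (Fin (s + 1)) K →ₐ[K] _).toRingHom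
    fun j => X (Sum.inl j)

theorem aeval_flat' (t : Fin (s + 1) → ℂ) (y : Fin (N + 1) → ℂ)
    (P : MvPolynomial (Fin (N + 1)) (MvPolynomial (Fin (s + 1)) K)) :
    aeval (Sum.elim y t) (flat' P) = evalTY t y P := by
  have h : (aeval (Sum.elim y t) : MvPolynomial (Fin (N + 1) ⊕ Fin (s + 1)) K →ₐ[K] ℂ).toRingHom.comp
      flat' = evalTY t y := by
    refine MvPolynomial.ringHom_ext' (MvPolynomial.ringHom_ext' (RingHom.ext fun a => ?_)
      fun i => ?_) fun i => ?_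
    · simp [flat', evalTY, evalT]
    · simp [flat', evalTY, evalT]
    · simp [flat', evalTY]
  exact congrArg (fun f => f P) h

/-- `y` is a vector of homogeneous coordinates of a point of the member `B_t` of the family of
projective algebraic sets defined by the forms `P l`. -/
def OnB {ν : Type} (P : ν → MvPolynomial (Fin (N + 1)) (MvPolynomial (Fin (s + 1)) K))
    (t : Fin (s + 1) → ℂ) (y : Fin (N + 1) → ℂ) : Prop :=
  y ≠ 0 ∧ ∀ l, evalTY t y (P l) = 0

/-- The divisors of the `A i / B i` are in general position along the hypersurface `G h = 0`, outside of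
the hypersurfaces of `U`: if `z` is a parameter on this hypersurface, no point of `B_z` lies on `m + 1`
of the divisors. -/
def PositionAlong {M : ℕ} {ν ι : Type} (m : ℕ) (𝔭 : Ideal (MvPolynomial (Fin (s + 1)) ℂ))
    (G : Fin M → MvPolynomial (Fin (s + 1)) K) (U : Finset (Fin M))
    (P : ν → MvPolynomial (Fin (N + 1)) (MvPolynomial (Fin (s + 1)) K))
    (A B : ι → MvPolynomial (Fin (N + 1)) (MvPolynomial (Fin (s + 1)) K)) (h : Fin M) : Prop :=
  ∀ z : Fin (s + 1) → ℂ, z ≠ 0 →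
    (∀ p : MvPolynomial (Fin (s + 1)) K, map (algebraMap K ℂ) p ∈ 𝔭 → evalT z p = 0) →
    (∀ u ∈ U, evalT z (G u) ≠ 0) → evalT z (G h) = 0 → ∀ y, OnB P z y →
    ∀ I : Finset ι, I.card = m + 1 → ∃ i ∈ I, evalTY z y (A i) * evalTY z y (B i) ≠ 0

/-- The Nullstellensatz for the points of the degenerate members. -/
theorem nullY {M : ℕ} {ν ι : Type} {m : ℕ} (𝔭 : Ideal (MvPolynomial (Fin (s + 1)) ℂ))
    (G : Fin M → MvPolynomial (Fin (s + 1)) K) (U : Finset (Fin M))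
    (P : ν → MvPolynomial (Fin (N + 1)) (MvPolynomial (Fin (s + 1)) K))
    (A B : ι → MvPolynomial (Fin (N + 1)) (MvPolynomial (Fin (s + 1)) K)) (h : Fin M)
    (hpos : PositionAlong m 𝔭 G U P A B h) (I : Finset ι) (hI : I.card = m + 1)
    (i : Fin (s + 1)) (j : Fin (N + 1)) :
    ∃ (n : ℕ) (Q₀ : MvPolynomial (Fin (N + 1) ⊕ Fin (s + 1)) K)
      (Q : ι → MvPolynomial (Fin (N + 1) ⊕ Fin (s + 1)) K),
      ∀ (t : Fin (s + 1) → ℂ) (y : Fin (N + 1) → ℂ), InBase 𝔭 t → (∀ l, evalTY t y (P l) = 0) →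
        (t i * y j * ∏ u ∈ U, evalT t (G u)) ^ n = aeval (Sum.elim y t) Q₀ * evalT t (G h) +
          ∑ l ∈ I, aeval (Sum.elim y t) (Q l) * (evalTY t y (A l) * evalTY t y (B l)) := by
  classical
  have hC : ∀ (t : Fin (s + 1) → ℂ) (y : Fin (N + 1) → ℂ) (p : MvPolynomial (Fin (s + 1)) K),
      aeval (Sum.elim y t) (flat' (C p : MvPolynomial (Fin (N + 1)) _)) = evalT t p := by
    intro t y p
    rw [aeval_flat', evalTY, coe_eval₂Hom, eval₂_C]
  let g : ι → MvPolynomial (Fin (N + 1) ⊕ Fin (s + 1)) K := fun l => flat' (A l * B l)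
  let I₀ : Ideal (MvPolynomial (Fin (N + 1) ⊕ Fin (s + 1)) K) := Ideal.span {flat' (C (G h))}
  let I₁ : Ideal (MvPolynomial (Fin (N + 1) ⊕ Fin (s + 1)) K) := Ideal.span (g '' (I : Set ι))
  let I₂ : Ideal (MvPolynomial (Fin (N + 1) ⊕ Fin (s + 1)) K) := Ideal.span
    ({q | ∃ p : MvPolynomial (Fin (s + 1)) K, map (algebraMap K ℂ) p ∈ 𝔭 ∧ q = flat' (C p)} ∪
      Set.range fun l => flat' (P l))
  have h1 : (X (Sum.inr i) * X (Sum.inl j) * ∏ u ∈ U, flat' (C (G u)) :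
      MvPolynomial (Fin (N + 1) ⊕ Fin (s + 1)) K) ∈ (I₀ ⊔ (I₁ ⊔ I₂)).radical := by
    rw [← vanishingIdeal_zeroLocus_eq_radical (K := ℂ)]
    rw [mem_vanishingIdeal_iff]
    intro w hw
    rw [mem_zeroLocus_iff] at hw
    obtain ⟨y, t, rfl⟩ : ∃ (y : Fin (N + 1) → ℂ) (t : Fin (s + 1) → ℂ), w = Sum.elim y t :=
      ⟨fun j => w (Sum.inl j), fun i => w (Sum.inr i), by
        funext x
        rcases x with x | x <;> rfl⟩
    rw [map_mul, map_mul, map_prod, aeval_X, aeval_X, Sum.elim_inr, Sum.elim_inl]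
    by_cases ht : t = 0
    · rw [ht, Pi.zero_apply, zero_mul, zero_mul]
    by_cases hy : y = 0
    · rw [hy, Pi.zero_apply, mul_zero, zero_mul]
    by_cases h4 : ∀ u ∈ U, evalT t (G u) ≠ 0
    · exfalso
      obtain ⟨l, hl, hne⟩ := hpos t ht (fun p hp => by
        rw [← hC t y p]
        exact hw _ (Ideal.mem_sup_right (Ideal.mem_sup_right (Ideal.subset_span
          (Or.inl ⟨p, hp, rfl⟩))))) h4 (by
        rw [← hC t y]
        exact hw _ (Ideal.mem_sup_left (Ideal.subset_span rfl))) y ⟨hy, fun l => by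
        rw [← aeval_flat']
        exact hw _ (Ideal.mem_sup_right (Ideal.mem_sup_right (Ideal.subset_span
          (Or.inr ⟨l, rfl⟩))))⟩ I hI
      apply hne
      rw [← map_mul, ← aeval_flat']
      exact hw _ (Ideal.mem_sup_right (Ideal.mem_sup_left (Ideal.subset_span ⟨l, hl, rfl⟩)))
    · push Not at h4
      obtain ⟨u, hu, hu0⟩ := h4
      rw [Finset.prod_eq_zero hu (by rw [hC]; exact hu0), mul_zero]
  obtain ⟨n, hn⟩ := h1
  obtain ⟨x₀, hx₀, x', hx', hxx⟩ := Submodule.mem_sup.1 hn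
  obtain ⟨x₁, hx₁, x₂, hx₂, hxx'⟩ := Submodule.mem_sup.1 hx'
  obtain ⟨Q₀, rfl⟩ := Ideal.mem_span_singleton'.1 hx₀
  have h3 : x₁ ∈ Submodule.span (MvPolynomial (Fin (N + 1) ⊕ Fin (s + 1)) K)
    (g '' (I : Set ι)) := hx₁
  rw [Submodule.mem_span_image_finset_iff_exists_fun'] at h3
  obtain ⟨Q, hQ⟩ := h3
  refine ⟨n, Q₀, Q, fun t y ht hy => ?_⟩
  have h5 : aeval (Sum.elim y t) x₂ = 0 := by
    have h6 : I₂ ≤ RingHom.ker (aeval (Sum.elim y t) :
        MvPolynomial (Fin (N + 1) ⊕ Fin (s + 1)) K →ₐ[K] ℂ).toRingHom := by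
      refine Ideal.span_le.2 ?_
      rintro q (⟨p, hp, rfl⟩ | ⟨l, rfl⟩)
      · change aeval (Sum.elim y t) _ = 0
        rw [hC, ← ht _ hp]
        exact (eval_map _ _ _).symm
      · change aeval (Sum.elim y t) (flat' (P l)) = 0
        rw [aeval_flat']
        exact hy l
    exact h6 hx₂
  have h7 := congrArg (aeval (Sum.elim y t)) (hxx.symm.trans (congrArg₂ (· + ·) rfl hxx'.symm))
  rw [map_pow, map_mul, map_mul, map_prod, aeval_X, aeval_X, Sum.elim_inr, Sum.elim_inl] at h7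
  simp only [hC] at h7
  rw [h7, map_add, map_add, h5, add_zero, map_mul, hC, ← hQ, map_sum]
  congr 1
  refine Finset.sum_congr rfl fun l _ => ?_
  rw [smul_eq_mul, map_mul]
  simp only [g]
  rw [aeval_flat', map_mul]

end

section

variable {K : Subfield ℂ} {s N : ℕ}

/-- The data at the places near to the degenerate members. -/
theorem nearG {ν : Type} {n k m M M' : ℕ}
    (𝔭 : Ideal (MvPolynomial (Fin (s + 1)) ℂ))
    (G : Fin M → MvPolynomial (Fin (s + 1)) K) (U : Finset (Fin M))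
    (P : ν → MvPolynomial (Fin (N + 1)) (MvPolynomial (Fin (s + 1)) K))
    (hP : ∀ l, ∃ a b, BiHom (P l) a b)
    (A B : Fin n ⊕ Fin k → MvPolynomial (Fin (N + 1)) (MvPolynomial (Fin (s + 1)) K))
    (β γ d : Fin n ⊕ Fin k → ℕ) (hA : ∀ i, BiHom (A i) (γ i + β i) (d i))
    (hB : ∀ i, BiHom (B i) (β i) (d i))
    (R : Fin n → Polynomial (Polynomial K))
    (c : Fin n ⊕ Fin k → MvPolynomial (Fin (s + 1)) K)
    (e : Fin M → Fin n ⊕ Fin k → ℕ)
    (hfac : ∀ i, ∃ c₀ : K, c₀ ≠ 0 ∧ map (algebraMap K ℂ) (c i - C c₀ * ∏ h, G h ^ e h i) ∈ 𝔭)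
    (D : Fin M' → Finset (Fin M))
    (hdis : ∀ l, ∀ h ∈ D l, ∀ h', h' ≠ h → ¬ Meet 𝔭 G U {h, h'})
    (hpos : ∀ l, ∀ h ∈ D l, PositionAlong m 𝔭 G U P A B h) (C₀ : Finset K) :
    ∃ W : Finset K, C₀ ⊆ W ∧ (∀ h, ∀ m ∈ (G h).support, (G h).coeff m ∈ W) ∧
      ∀ V : ValuationSubring ℂ, (∀ z ∈ W, (z : ℂ) ∈ V) →
      (∀ i u w, ((R i).coeff u).coeff w ≠ 0 →
        V.valuation ((((R i).coeff u).coeff w : K) : ℂ) = 1) ∧
      ∀ (t : Fin (s + 1) → ℂ) (i₀ : Fin (s + 1)), InBase 𝔭 t → (∀ i, t i ∈ V) → t i₀ = 1 →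
        (∀ u ∈ U, V.valuation (evalT t (G u)) = 1) →
        ∀ l, ∀ h ∈ D l, V.valuation (evalT t (G h)) < 1 →
        ∀ (sx : Fin n ⊕ Fin k → ℂ) (y : Fin (N + 1) → ℂ), OnB P t y →
        (∀ i, evalT t (c i) * evalTY t y (B i) * sx i = evalTY t y (A i)) →
        ∃ E : Finset (Fin n ⊕ Fin k), E.card ≤ m ∧ ∀ i, i ∉ E →
          V.valuation (sx i) * V.valuation (evalT t (G h)) ^ e h i = 1 := by
  classical
  choose c₀ hc₀ hcfac using hfac
  have hcert : ∀ (h : Fin M) (I : Finset (Fin n ⊕ Fin k)) (i : Fin (s + 1)) (j : Fin (N + 1)),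
      ∃ (n' : ℕ) (Q₀ : MvPolynomial (Fin (N + 1) ⊕ Fin (s + 1)) K)
      (Q : Fin n ⊕ Fin k → MvPolynomial (Fin (N + 1) ⊕ Fin (s + 1)) K),
      PositionAlong m 𝔭 G U P A B h → I.card = m + 1 →
      ∀ (t : Fin (s + 1) → ℂ) (y : Fin (N + 1) → ℂ), InBase 𝔭 t → (∀ l, evalTY t y (P l) = 0) →
        (t i * y j * ∏ u ∈ U, evalT t (G u)) ^ n' = aeval (Sum.elim y t) Q₀ * evalT t (G h) +
          ∑ l ∈ I, aeval (Sum.elim y t) (Q l) * (evalTY t y (A l) * evalTY t y (B l)) := by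
    intro h I i j
    by_cases h1 : PositionAlong m 𝔭 G U P A B h ∧ I.card = m + 1
    · obtain ⟨n', Q₀, Q, hQ⟩ := nullY 𝔭 G U P A B h h1.1 I h1.2 i j
      exact ⟨n', Q₀, Q, fun _ _ => hQ⟩
    · exact ⟨0, 0, 0, fun h2 h3 => absurd ⟨h2, h3⟩ h1⟩
  choose n' Q₀ Q hQ using hcert
  let cf : MvPolynomial (Fin (N + 1) ⊕ Fin (s + 1)) K → Finset K := fun p =>
    p.support.image fun m => p.coeff m
  let cR : Finset K := Finset.univ.biUnion fun i : Fin n => (R i).support.biUnion fun u =>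
    ((R i).coeff u).support.image fun w => ((R i).coeff u).coeff w
  let C₁ : Finset K := C₀ ∪ ((Finset.univ.image c₀) ∪ (Finset.univ.image fun i => (c₀ i)⁻¹) ∪
    (cR ∪ (cR.image fun z => z⁻¹)) ∪
    ((Finset.univ.biUnion fun i => coefs (A i)) ∪ (Finset.univ.biUnion fun i => coefs (B i))) ∪
    ((Finset.univ.biUnion fun p : Fin M × Finset (Fin n ⊕ Fin k) × Fin (s + 1) × Fin (N + 1) =>
      cf (Q₀ p.1 p.2.1 p.2.2.1 p.2.2.2)) ∪
    (Finset.univ.biUnion fun p : Fin M × Finset (Fin n ⊕ Fin k) × Fin (s + 1) × Fin (N + 1) ×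
      (Fin n ⊕ Fin k) => cf (Q p.1 p.2.1 p.2.2.1 p.2.2.2.1 p.2.2.2.2))))
  obtain ⟨W, hCW, hWG, hW⟩ := exists_W 𝔭 G U C₁
  refine ⟨W, fun z hz => hCW (Finset.mem_union_left _ hz), hWG, fun V hV => ?_⟩
  have hVC : ∀ z ∈ C₁, (z : ℂ) ∈ V := fun z hz => hV z (hCW hz)
  have hVc₀ : ∀ i, (c₀ i : ℂ) ∈ V := fun i => hVC _ (by simp [C₁])
  have hVc₀' : ∀ i, (((c₀ i)⁻¹ : K) : ℂ) ∈ V := fun i => hVC _ (by simp [C₁])
  have hVR : ∀ z ∈ cR, (z : ℂ) ∈ V := fun z hz => hVC _ (by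
    simp only [C₁, Finset.mem_union]
    tauto)
  have hVR' : ∀ z ∈ cR, ((z⁻¹ : K) : ℂ) ∈ V := fun z hz => hVC _ (by
    simp only [C₁, Finset.mem_union]
    have := Finset.mem_image_of_mem (fun z : K => z⁻¹) hz
    tauto)
  have hVA : ∀ i, ∀ z ∈ coefs (A i), (z : ℂ) ∈ V := fun i z hz => hVC _ (by
    simp only [C₁, Finset.mem_union]
    have : z ∈ Finset.univ.biUnion fun i => coefs (A i) :=
      Finset.mem_biUnion.2 ⟨i, Finset.mem_univ _, hz⟩
    tauto)
  have hVB : ∀ i, ∀ z ∈ coefs (B i), (z : ℂ) ∈ V := fun i z hz => hVC _ (by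
    simp only [C₁, Finset.mem_union]
    have : z ∈ Finset.univ.biUnion fun i => coefs (B i) :=
      Finset.mem_biUnion.2 ⟨i, Finset.mem_univ _, hz⟩
    tauto)
  have hVQ₀ : ∀ h I i j, ∀ m ∈ (Q₀ h I i j).support, (((Q₀ h I i j).coeff m : K) : ℂ) ∈ V :=
    fun h I i j m hm => hVC _ (by
      simp only [C₁, Finset.mem_union]
      have : (Q₀ h I i j).coeff m ∈ Finset.univ.biUnion
          fun p : Fin M × Finset (Fin n ⊕ Fin k) × Fin (s + 1) × Fin (N + 1) =>
            cf (Q₀ p.1 p.2.1 p.2.2.1 p.2.2.2) :=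
        Finset.mem_biUnion.2 ⟨(h, I, i, j), Finset.mem_univ _, Finset.mem_image_of_mem _ hm⟩
      tauto)
  have hVQ : ∀ h I i j l, ∀ m ∈ (Q h I i j l).support,
      (((Q h I i j l).coeff m : K) : ℂ) ∈ V :=
    fun h I i j l m hm => hVC _ (by
      simp only [C₁, Finset.mem_union]
      have : (Q h I i j l).coeff m ∈ Finset.univ.biUnion
          fun p : Fin M × Finset (Fin n ⊕ Fin k) × Fin (s + 1) × Fin (N + 1) × (Fin n ⊕ Fin k) =>
            cf (Q p.1 p.2.1 p.2.2.1 p.2.2.2.1 p.2.2.2.2) :=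
        Finset.mem_biUnion.2 ⟨(h, I, i, j, l), Finset.mem_univ _, Finset.mem_image_of_mem _ hm⟩
      tauto)
  have hunit : ∀ z : K, z ≠ 0 → (z : ℂ) ∈ V → ((z⁻¹ : K) : ℂ) ∈ V → V.valuation (z : ℂ) = 1 := by
    intro z hz0 h1 h2
    refine le_antisymm ((ValuationSubring.valuation_le_one_iff _ _).2 h1) ?_
    have h8 := (ValuationSubring.valuation_le_one_iff _ _).2 h2
    push_cast at h8
    rw [map_inv₀] at h8
    have h7 : (z : ℂ) ≠ 0 := by exact_mod_cast hz0
    exact (inv_le_one₀ (zero_lt_iff.2 ((Valuation.ne_zero_iff _).2 h7))).1 h8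
  refine ⟨fun i u w h0 => ?_, fun t i₀ htb ht ht0 htU l h hh hVh sx y hy hxy => ?_⟩
  · have hmem : ((R i).coeff u).coeff w ∈ cR := by
      refine Finset.mem_biUnion.2 ⟨i, Finset.mem_univ _, Finset.mem_biUnion.2 ⟨u, ?_,
        Finset.mem_image.2 ⟨w, Polynomial.mem_support_iff.2 h0, rfl⟩⟩⟩
      rw [Polynomial.mem_support_iff]
      intro h1
      rw [h1, Polynomial.coeff_zero] at h0
      exact h0 rfl
    exact hunit _ h0 (hVR _ hmem) (hVR' _ hmem)
  obtain ⟨hle, hmeet⟩ := hW V t i₀ htb hV ht ht0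
  have hmeet := hmeet htU
  -- the other forms are units
  have hother : ∀ h', h' ≠ h → V.valuation (evalT t (G h')) = 1 := by
    intro h' hne
    refine le_antisymm (hle h') (not_lt.1 fun hlt => ?_)
    obtain ⟨z, hz0, hzb, hzU, hz⟩ := hmeet
    refine hdis l h hh h' hne ⟨z, hz0, hzb, hzU, fun h'' h3 => ?_⟩
    rcases h3 with rfl | rfl
    · exact hz _ hVh
    · exact hz _ hlt
  have hcv : ∀ i, V.valuation (evalT t (c i)) = V.valuation (evalT t (G h)) ^ e h i := by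
    intro i
    have h2 : evalT t (c i) = evalT t (C (c₀ i) * ∏ h, G h ^ e h i) := by
      have h3 := htb _ (hcfac i)
      rw [eval_map] at h3
      have h4 : evalT t (c i - C (c₀ i) * ∏ h, G h ^ e h i) = 0 := h3
      rwa [map_sub, sub_eq_zero] at h4
    have h3 : evalT t (C (c₀ i) : MvPolynomial (Fin (s + 1)) K) = (c₀ i : ℂ) := by
      rw [evalT, coe_eval₂Hom, eval₂_C]
      rfl
    rw [h2, map_mul, map_mul, h3, hunit _ (hc₀ i) (hVc₀ i) (hVc₀' i), one_mul, map_prod, map_prod,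
      Finset.prod_eq_single h]
    · rw [map_pow, map_pow]
    · intro h' _ hne
      rw [map_pow, map_pow, hother h' hne, one_pow]
    · intro h0
      exact absurd (Finset.mem_univ h) h0
  -- scaled coordinates
  obtain ⟨j₀, hj₀⟩ := Finite.exists_max fun j => V.valuation (y j)
  have hyj₀ : y j₀ ≠ 0 := by
    intro h0
    apply hy.1
    funext j
    have h1 := hj₀ j
    rw [h0, map_zero] at h1
    exact (map_eq_zero V.valuation).1 (le_antisymm h1 zero_le)
  have hvy : V.valuation (y j₀) ≠ 0 := (Valuation.ne_zero_iff _).2 hyj₀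
  let y' : Fin (N + 1) → ℂ := fun j => y j / y j₀
  have hy'V : ∀ j, y' j ∈ V := by
    intro j
    rw [← ValuationSubring.valuation_le_one_iff]
    simp only [y', map_div₀]
    exact div_le_one_of_le₀ (hj₀ j) zero_le
  have hy'1 : y' j₀ = 1 := div_self hyj₀
  have hdiv : ∀ {P' : MvPolynomial (Fin (N + 1)) (MvPolynomial (Fin (s + 1)) K)} {a b : ℕ},
      BiHom P' a b → evalTY t y' P' = evalTY t y P' / y j₀ ^ b := by
    intro P' a b hP'
    have h1 := evalTY_div (t := t) (y := y) hP' 1 (y j₀)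
    simp only [div_one, one_pow, one_mul] at h1
    exact h1
  have hy'P : ∀ l, evalTY t y' (P l) = 0 := by
    intro l
    obtain ⟨a, b, hab⟩ := hP l
    rw [hdiv hab, hy.2 l, zero_div]
  have hAV : ∀ i, V.valuation (evalTY t y' (A i)) ≤ 1 := fun i =>
    (ValuationSubring.valuation_le_one_iff _ _).2 (evalTY_mem V.toSubring ht hy'V (hVA i))
  have hBV : ∀ i, V.valuation (evalTY t y' (B i)) ≤ 1 := fun i =>
    (ValuationSubring.valuation_le_one_iff _ _).2 (evalTY_mem V.toSubring ht hy'V (hVB i))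
  have hQV : ∀ q : MvPolynomial (Fin (N + 1) ⊕ Fin (s + 1)) K,
      (∀ m ∈ q.support, ((q.coeff m : K) : ℂ) ∈ V) →
      V.valuation (aeval (Sum.elim y' t) q) ≤ 1 := by
    intro q hq
    rw [ValuationSubring.valuation_le_one_iff, aeval_def, eval₂_eq']
    refine sum_mem fun m hm => mul_mem (hq m hm) (prod_mem fun i _ => pow_mem ?_ _)
    rcases i with i | i
    · exact hy'V i
    · exact ht i
  refine ⟨Finset.univ.filter fun i =>
    V.valuation (evalTY t y' (A i) * evalTY t y' (B i)) < 1, ?_, fun i hi => ?_⟩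
  · by_contra hcard
    push Not at hcard
    obtain ⟨I, hIE, hIc⟩ := Finset.exists_subset_card_eq (Nat.succ_le_of_lt hcard)
    have h1 := hQ h I i₀ j₀ (hpos l h hh) hIc t y' htb hy'P
    have h2 : V.valuation ((t i₀ * y' j₀ * ∏ u ∈ U, evalT t (G u)) ^ n' h I i₀ j₀) = 1 := by
      rw [ht0, hy'1, one_mul, one_mul, map_pow, map_prod,
        Finset.prod_eq_one fun u hu => htU u hu, one_pow]
    have h3 : V.valuation (aeval (Sum.elim y' t) (Q₀ h I i₀ j₀) * evalT t (G h) +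
          ∑ l ∈ I, aeval (Sum.elim y' t) (Q h I i₀ j₀ l) *
            (evalTY t y' (A l) * evalTY t y' (B l))) < 1 := by
      refine Valuation.map_add_lt _ ?_ (Valuation.map_sum_lt _ one_ne_zero fun l hl => ?_)
      · rw [map_mul]
        exact (mul_le_of_le_one_left' (hQV _ (hVQ₀ _ _ _ _))).trans_lt hVh
      · rw [map_mul]
        exact (mul_le_of_le_one_left' (hQV _ (hVQ _ _ _ _ _))).trans_lt
          (Finset.mem_filter.1 (hIE hl)).2
    rw [← h1, h2] at h3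
    exact lt_irrefl _ h3
  · have h1 : ¬ V.valuation (evalTY t y' (A i) * evalTY t y' (B i)) < 1 := fun h1 =>
      hi (Finset.mem_filter.2 ⟨Finset.mem_univ _, h1⟩)
    rw [map_mul, not_lt] at h1
    have hA1 : V.valuation (evalTY t y' (A i)) = 1 :=
      le_antisymm (hAV i) (h1.trans (mul_le_of_le_one_right' (hBV i)))
    have hB1 : V.valuation (evalTY t y' (B i)) = 1 :=
      le_antisymm (hBV i) (h1.trans (mul_le_of_le_one_left' (hAV i)))
    have h2 : evalT t (c i) * evalTY t y' (B i) * sx i = evalTY t y' (A i) := by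
      rw [hdiv (hA i), hdiv (hB i), ← hxy i]
      ring
    have h3 := congrArg V.valuation h2
    rw [map_mul, map_mul, hA1, hB1, mul_one, hcv, mul_comm] at h3
    exact h3

end

end Pool.Agent.K6.H79.ZP
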