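import Pool.Agent.K6.H79.ZP.Geo

/-!
Families of scaled images in `Y(1)^n × G_m^k` over a projective variety: the exceptional members
(helper file).
-/

set_option autoImplicit false

namespace Pool.Agent.K6.H79.ZP

open H294ZP UpperHalfPlane MvPolynomial Pool.Agent.W282.ZP Pool.Agent.Y152.RP Pool.Agent.R424.TG
open Pool.Agent.Y152.RP.FamM (NoAtypical SpecialVariety coset rel_of_locus valueAt)
open Pool.Agent.R424.FD (toNat_mul')

/-- The member `X_t` of the family of subsets of `Y(1)^n × G_m^k`: the points `x` over which there are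
values `s_i` of the functions on the factors of the product of modular curves, with
`c_i (t) s_i = A_i (y) / B_i (y)` for the modular and `c_j (t) x_j = A_j (y) / B_j (y)` for the torus
coordinates, for a point `y` of `B_t`. -/
def scaledT {K : Subfield ℂ} {s N n k : ℕ} {ν : Type} (t : Fin (s + 1) → ℂ)
    (P : ν → MvPolynomial (Fin (N + 1)) (MvPolynomial (Fin (s + 1)) K))
    (A B : Fin n ⊕ Fin k → MvPolynomial (Fin (N + 1)) (MvPolynomial (Fin (s + 1)) K))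
    (R : Fin n → Polynomial (Polynomial K))
    (c : Fin n ⊕ Fin k → MvPolynomial (Fin (s + 1)) K) : Set (Fin n ⊕ Fin k → ℂ) :=
  {x | (∀ j, x (Sum.inr j) ≠ 0) ∧ ∃ y, OnB P t y ∧
    (∃ v : Fin n → ℂ, ∀ i, valueAt (R i) (v i) (x (Sum.inl i)) = 0 ∧
      evalT t (c (Sum.inl i)) * evalTY t y (B (Sum.inl i)) * v i = evalTY t y (A (Sum.inl i))) ∧
    ∀ j, evalT t (c (Sum.inr j)) * evalTY t y (B (Sum.inr j)) * x (Sum.inr j) =
      evalTY t y (A (Sum.inr j))}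

/-- The orders `e h i` of the `c i` along the hypersurfaces `G h = 0`, `h ∈ D l`, are positive and
independent: modulo squares for the modular coordinates, and linearly for the torus coordinates
(the vectors at elements of any `k` of the sets `D l` are linearly independent). -/
def IndependentAlong {n k M M' : ℕ} (T : ℕ) (e : Fin M → Fin n ⊕ Fin k → ℕ)
    (D : Fin M' → Finset (Fin M)) : Prop :=
  (∀ l, ∀ h ∈ D l, ∀ i, 0 < e h i) ∧
  (∀ l l', l ≠ l' → ∀ h ∈ D l, ∀ h' ∈ D l', ∀ i j : Fin n, i ≠ j → ∀ q, 0 < q → q ≤ T ^ 8 →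
    ¬ IsSquare (q * (e h (Sum.inl i) * e h (Sum.inl j) *
      (e h' (Sum.inl i) * e h' (Sum.inl j))))) ∧
  ∀ (u : Finset (Fin M')) (h : Fin M' → Fin M) (b : Fin k → ℤ), (∀ l ∈ u, h l ∈ D l) →
    k ≤ u.card → (∀ l ∈ u, ∑ j, b j * (e (h l) (Sum.inr j) : ℤ) = 0) → b = 0

/-- The criterion for one member of the family. -/
theorem coreG (K : Subfield ℂ) [Countable K] {ν : Type} {n k N m s M M' T : ℕ}
    (𝔭 : Ideal (MvPolynomial (Fin (s + 1)) ℂ)) (h𝔭 : ∀ p ∈ 𝔭, ∀ i, homogeneousComponent i p ∈ 𝔭)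
    (G : Fin M → MvPolynomial (Fin (s + 1)) K) (δ : Fin M → ℕ) (hG : ∀ h, (G h).IsHomogeneous (δ h))
    (U : Finset (Fin M))
    (P : ν → MvPolynomial (Fin (N + 1)) (MvPolynomial (Fin (s + 1)) K))
    (hP : ∀ l, ∃ a b, BiHom (P l) a b)
    (A B : Fin n ⊕ Fin k → MvPolynomial (Fin (N + 1)) (MvPolynomial (Fin (s + 1)) K))
    (β γ d : Fin n ⊕ Fin k → ℕ) (hA : ∀ i, BiHom (A i) (γ i + β i) (d i))
    (hB : ∀ i, BiHom (B i) (β i) (d i))
    (R : Fin n → Polynomial (Polynomial K)) (hR : ∀ i, (R i).Monic)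
    (hT : ∀ i u w, ((R i).coeff u).coeff w ≠ 0 → u ≤ T ∧ w ≤ T)
    (c : Fin n ⊕ Fin k → MvPolynomial (Fin (s + 1)) K) (hc : ∀ i, (c i).IsHomogeneous (γ i))
    (e : Fin M → Fin n ⊕ Fin k → ℕ)
    (hfac : ∀ i, ∃ c₀ : K, c₀ ≠ 0 ∧ map (algebraMap K ℂ) (c i - C c₀ * ∏ h, G h ^ e h i) ∈ 𝔭)
    (D : Fin M' → Finset (Fin M)) (hind : IndependentAlong T e D)
    (hdis : ∀ l, ∀ h ∈ D l, ∀ h', h' ≠ h → ¬ Meet 𝔭 G U {h, h'})
    (hpos : ∀ l, ∀ h ∈ D l, PositionAlong m 𝔭 G U P A B h)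
    (Γ F : Finset ℂ) (hΓ : ∀ γ ∈ Γ, γ ∈ K) (hF : ∀ z ∈ F, z ∈ K) :
    ∃ W : Finset K, (∀ h, ∀ m ∈ (G h).support, (G h).coeff m ∈ W) ∧
      (∀ z (hz : z ∈ F), (⟨z, hF z hz⟩ : K) ∈ W) ∧
      ∀ t : Fin (s + 1) → ℂ, InBase 𝔭 t → (∀ h, evalT t (G h) ≠ 0) →
      IntegralAt G δ U (Subring.closure (F : Set ℂ)) t →
      (∃ f : Fin (n.choose 2 + k * 2 ^ k + 1) → Fin M', Function.Injective f ∧
        ∀ l, ∃ h ∈ D (f l), Near (W : Set K) K t (δ h) (evalT t (G h))) →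
      NoAtypical (algebraMap (Algebra.adjoin ℤ (Γ : Set ℂ)) ℂ) K m (scaledT t P A B R c) := by
  classical
  let C₀ : Finset K := (Γ.attach.image fun γ => (⟨γ.1, hΓ γ.1 γ.2⟩ : K)) ∪
      F.attach.image fun γ => (⟨γ.1, hF γ.1 γ.2⟩ : K)
  obtain ⟨W, hCW, hWG, hW⟩ := nearG (m := m) 𝔭 G U P hP A B β γ d hA hB R c e hfac D hdis hpos C₀
  have hFW : ∀ z (hz : z ∈ F), (⟨z, hF z hz⟩ : K) ∈ W := fun z hz =>
    hCW (Finset.mem_union_right _ (Finset.mem_image.2 ⟨⟨z, hz⟩, Finset.mem_attach _ _, rfl⟩))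
  refine ⟨W, hWG, hFW, fun t htb ht0 hint hnear => ?_⟩
  obtain ⟨f, hf, hnear⟩ := hnear
  choose h hhD hh using hnear
  -- the rings
  let Λ := Algebra.adjoin ℤ (Γ : Set ℂ)
  have hΛK : ∀ a : Λ, algebraMap Λ ℂ a ∈ K := by
    intro a
    have hle : Algebra.adjoin ℤ (Γ : Set ℂ) ≤ subalgebraOfSubring K.toSubring :=
      Algebra.adjoin_le fun γ hγ => hΓ γ hγ
    exact hle a.2
  let fK : Λ →+* K := (algebraMap Λ ℂ).codRestrict K hΛK
  let _ : Algebra Λ K := fK.toAlgebra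
  have hst : IsScalarTower Λ K ℂ := IsScalarTower.of_algebraMap_eq fun _ => rfl
  let 𝕜 := algebraicClosure K ℂ
  have hintalg : ∀ z : ℂ, IsIntegral Λ z → IsAlgebraic K z := fun z hz =>
    (hz.tower_top (A := K)).isAlgebraic
  refine noAtypical_of_points K _ (fun x hx => hx.1) ?_
  rintro x ⟨hx0, y, hy, ⟨v, hv⟩, hxy2⟩ r Z M₁ η hη hxZ hxC S hS
  have hSk : AlgebraicIndependent 𝕜 (fun i : S => x i) := algInd_closure le_rfl hS
  have h1 : ∀ i, Z.cls i = none → IsIntegral Λ (x (Sum.inl i)) := by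
    intro i hi
    obtain ⟨z, hz⟩ := hxZ
    have h2 : x (Sum.inl i) = Z.const i := (hz i).1 hi
    rw [h2]
    rcases Z.allowed i with ⟨τ, hτ, hc⟩ | h
    · rw [hc]
      exact (singular_modulus_integral τ hτ).tower_top
    · exact h
  have hηint : ∀ j, IsIntegral Λ (η j) ∧ IsIntegral Λ (η j)⁻¹ := fun j =>
    ⟨(hη j).2.1, (hη j).2.2⟩
  -- the places
  choose V i₀ hVW hti₀ hti hVh hVx using fun l => hh l S (fun i : S => x i) hS
  have hv0 : ∀ l, (V l).valuation (t (i₀ l)) ≠ 0 := fun l => (Valuation.ne_zero_iff _).2 (hti₀ l)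
  let t' : ∀ l, Fin (s + 1) → ℂ := fun l i => t i / t (i₀ l)
  have ht'b : ∀ l, InBase 𝔭 (t' l) := fun l => inBase_div h𝔭 htb _
  have ht'V : ∀ l i, t' l i ∈ V l := by
    intro l i
    rw [← ValuationSubring.valuation_le_one_iff]
    simp only [t', map_div₀]
    exact div_le_one_of_le₀ (hti l i) zero_le
  have ht'1 : ∀ l, t' l (i₀ l) = 1 := fun l => div_self (hti₀ l)
  have hgG : ∀ l h, evalT (t' l) (G h) = evalT t (G h) / t (i₀ l) ^ δ h := fun l h =>
    evalT_div (hG h) _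
  have hgne : ∀ l h, evalT (t' l) (G h) ≠ 0 := fun l h => by
    rw [hgG]
    exact div_ne_zero (ht0 h) (pow_ne_zero _ (hti₀ l))
  have hle : ∀ l h, (V l).valuation (evalT (t' l) (G h)) ≤ 1 := fun l h =>
    (ValuationSubring.valuation_le_one_iff _ _).2
      (evalT_mem (V l).toSubring (ht'V l) fun m hm => hVW l _ (hWG h m hm))
  have hU1 : ∀ l, ∀ u ∈ U, (V l).valuation (evalT (t' l) (G u)) = 1 := by
    intro l u hu
    refine le_antisymm (hle l u) ?_
    have hFV : Subring.closure (F : Set ℂ) ≤ (V l).toSubring :=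
      Subring.closure_le.2 fun z hz => hVW l ⟨z, hF z hz⟩ (hFW z hz)
    have h2 : t (i₀ l) ^ δ u / evalT t (G u) ∈ V l := hFV (hint u hu (i₀ l))
    rw [← ValuationSubring.valuation_le_one_iff] at h2
    have h3 : evalT (t' l) (G u) = (t (i₀ l) ^ δ u / evalT t (G u))⁻¹ := by rw [hgG, inv_div]
    have h4 : t (i₀ l) ^ δ u / evalT t (G u) ≠ 0 := div_ne_zero (pow_ne_zero _ (hti₀ l)) (ht0 u)
    rw [h3, map_inv₀]
    exact (one_le_inv₀ (zero_lt_iff.2 ((Valuation.ne_zero_iff _).2 h4))).2 h2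
  have hVh' : ∀ l, (V l).valuation (evalT (t' l) (G (h l))) < 1 := by
    intro l
    rw [hgG, map_div₀, map_pow]
    exact (div_lt_one₀ (zero_lt_iff.2 (pow_ne_zero _ (hv0 l)))).2 (hVh l)
  -- the scaled equations
  let sx : Fin n ⊕ Fin k → ℂ := Sum.elim v fun j => x (Sum.inr j)
  have hdiv : ∀ l {P' : MvPolynomial (Fin (N + 1)) (MvPolynomial (Fin (s + 1)) K)} {a b : ℕ},
      BiHom P' a b → evalTY (t' l) y P' = evalTY t y P' / t (i₀ l) ^ a := by
    intro l P' a b hP'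
    have h1 := evalTY_div (t := t) (y := y) hP' (t (i₀ l)) 1
    simp only [div_one, one_pow, mul_one] at h1
    exact h1
  have hxy : ∀ l i, evalT (t' l) (c i) * evalTY (t' l) y (B i) * sx i = evalTY (t' l) y (A i) := by
    intro l i
    have h2 : evalT t (c i) * evalTY t y (B i) * sx i = evalTY t y (A i) := by
      rcases i with i | j
      · exact (hv i).2
      · exact hxy2 j
    rw [show evalT (t' l) (c i) = evalT t (c i) / t (i₀ l) ^ γ i from evalT_div (hc i) _,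
      hdiv l (hB i), hdiv l (hA i), ← h2, pow_add]
    field_simp
  have hyl : ∀ l, OnB P (t' l) y := by
    intro l
    refine ⟨hy.1, fun l' => ?_⟩
    obtain ⟨a, b, hab⟩ := hP l'
    rw [hdiv l hab, hy.2 l', zero_div]
  refine coreMV (Λ := K) (F := 𝕜) (m := m) (T := T) R hR hT (fun l i => e (h l) i)
    (fun l i => hind.1 (f l) _ (hhD l) i)
    (fun l l' hll i j hij q hq hqT =>
      hind.2.1 (f l) (f l') (fun h => hll (hf h)) _ (hhD l) _ (hhD l') i j hij q hq hqT)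
    (fun u b hu hb => by
      by_cases hM' : u.Nonempty
      swap
      · rw [Finset.not_nonempty_iff_eq_empty] at hM'
        rw [hM', Finset.card_empty] at hu
        have hk : k = 0 := Nat.le_zero.1 hu
        subst hk
        exact funext fun j => j.elim0
      obtain ⟨l₀, hl₀⟩ := hM'
      refine hind.2.2 (u.map ⟨f, hf⟩) (Function.extend f h fun _ => h l₀) b ?_ ?_ ?_
      · intro l hl
        obtain ⟨l', hl', rfl⟩ := Finset.mem_map.1 hl
        simp only [Function.Embedding.coeFn_mk]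
        rw [hf.extend_apply]
        exact hhD l'
      · rw [Finset.card_map]
        exact hu
      · intro l hl
        obtain ⟨l', hl', rfl⟩ := Finset.mem_map.1 hl
        simp only [Function.Embedding.coeFn_mk]
        rw [hf.extend_apply]
        exact hb l' hl')
    Z.cls (fun i i' => ((Z.mat i).det * (Z.mat i').det).toNat) x v M₁ η
    (fun i i' => by
      have := mul_pos (Z.det_pos i) (Z.det_pos i')
      omega)
    (fun i hi => hintalg _ (h1 i hi)) (fun i j l hi hj => rel_of_locus Z hxZ i j l hi hj)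
    (fun i => (hv i).1) hx0 (fun j => ?_) hxC.2 S hS hSk V
    (fun l => (V l).valuation (evalT (t' l) (G (h l))))
    (fun l => (Valuation.ne_zero_iff _).2 (hgne l _)) hVh'
    (fun l i hi => ?_) (fun l i u w h0 => ?_) hVx (fun l j => ?_) (fun l => ?_)
  · exact ⟨⟨η j, mem_algebraicClosure_iff.2 (hintalg _ (hηint j).1)⟩, rfl⟩
  · refine TH526.ZL.mem_of_int (V l) (fun a => ?_) (h1 i hi)
    rw [ValuationSubring.valuation_le_one_iff]
    have hle : Algebra.adjoin ℤ (Γ : Set ℂ) ≤ subalgebraOfSubring (V l).toSubring :=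
      Algebra.adjoin_le fun γ hγ => hVW l ⟨γ, hΓ γ hγ⟩ (hCW (Finset.mem_union_left _
        (Finset.mem_image.2 ⟨⟨γ, hγ⟩, Finset.mem_attach _ _, rfl⟩)))
    exact hle a.2
  · exact (hW (V l) fun z hz => hVW l z hz).1 i u w h0
  · have hVΛ : ∀ a : Λ, (V l).valuation (algebraMap Λ ℂ a) ≤ 1 := fun a => by
      rw [ValuationSubring.valuation_le_one_iff]
      have hle : Algebra.adjoin ℤ (Γ : Set ℂ) ≤ subalgebraOfSubring (V l).toSubring :=
        Algebra.adjoin_le fun γ hγ => hVW l ⟨γ, hΓ γ hγ⟩ (hCW (Finset.mem_union_left _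
          (Finset.mem_image.2 ⟨⟨γ, hγ⟩, Finset.mem_attach _ _, rfl⟩)))
      exact hle a.2
    refine le_antisymm (TH526.ZL.mem_of_int (V l) hVΛ (hηint j).1) ?_
    have h5 := TH526.ZL.mem_of_int (V l) hVΛ (hηint j).2
    rw [map_inv₀] at h5
    have h6 : (V l).valuation (η j) ≠ 0 := (Valuation.ne_zero_iff _).2 (hη j).1
    exact (inv_le_one₀ (zero_lt_iff.2 h6)).1 h5
  · obtain ⟨E, hE, hE'⟩ := (hW (V l) fun z hz => hVW l z hz).2 (t' l) (i₀ l) (ht'b l) (ht'V l)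
      (ht'1 l) (hU1 l) (f l) (h l) (hhD l) (hVh' l) sx y (hyl l) (hxy l)
    exact ⟨E, hE, fun i hi => hE' _ hi, fun j hj => hE' _ hj⟩

/-- Integral points of the complement of a hypersurface are not near to it. -/
theorem flat_of_integral {K : Subfield ℂ} {s M : ℕ} {S : Finset K} {F : Finset ℂ}
    (hF : ∀ z ∈ F, z ∈ K) (hFS : ∀ z (hz : z ∈ F), (⟨z, hF z hz⟩ : K) ∈ S)
    {G : Fin M → MvPolynomial (Fin (s + 1)) K} {δ : Fin M → ℕ} {U : Finset (Fin M)}
    {t : Fin (s + 1) → K} (ht0 : ∀ h, eval t (G h) ≠ 0)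
    (htU : IntegralAt G δ U (Subring.closure (F : Set ℂ)) fun i => (t i : ℂ)) {l : Fin M}
    (hl : l ∈ U) : Flat (S : Set K) t (δ l) (eval t (G l)) := by
  intro V hV i
  have h1 := htU l hl i
  rw [evalT_coe] at h1
  have h2 : t i ^ δ l / eval t (G l) ∈ V := by
    have h3 : Subring.closure (F : Set ℂ) ≤ V.toSubring.map K.subtype := by
      refine Subring.closure_le.2 fun z hz => ?_
      exact ⟨⟨z, hF z hz⟩, hV _ (Finset.mem_coe.2 (hFS z hz)), rfl⟩
    obtain ⟨x, hx1, hx2⟩ := h3 h1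
    have h4 : x = t i ^ δ l / eval t (G l) := by
      apply Subtype.ext
      rw [show (x : ℂ) = K.subtype x from rfl, hx2]
      push_cast
      rfl
    rw [← h4]
    exact hx1
  rw [← ValuationSubring.valuation_le_one_iff, map_div₀, map_pow] at h2
  exact (div_le_one₀ (zero_lt_iff.2 ((Valuation.ne_zero_iff _).2 (ht0 l)))).1 h2

/-- Sets of points at which the quotients of products of related forms are units. -/
theorem zariski {K : Subfield ℂ} [Countable K] {s M : ℕ}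
    (𝔭 : Ideal (MvPolynomial (Fin (s + 1)) ℂ)) (hp : 𝔭.IsPrime)
    (h𝔭 : ∀ p ∈ 𝔭, ∀ i, homogeneousComponent i p ∈ 𝔭)
    (G : Fin M → MvPolynomial (Fin (s + 1)) K) (δ : Fin M → ℕ)
    (hG : ∀ h, (G h).IsHomogeneous (δ h)) (Sc : Set ℂ) (hSc : Sc.Finite)
    (Exc : Set (Fin (s + 1) → ℂ)) (hExc : ∀ t ∈ Exc, InBase 𝔭 t ∧ (∀ i, t i ∈ K) ∧
      (∀ h, evalT t (G h) ≠ 0) ∧ ∃ J : Set (Fin M),
        Related 𝔭 (fun l => map (algebraMap K ℂ) (G l)) J ∧
        ∀ a b : Fin M → ℕ, (∀ l, a l ≠ 0 ∨ b l ≠ 0 → l ∈ J) → ∑ l, δ l * a l = ∑ l, δ l * b l →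
          (∏ l, evalT t (G l) ^ a l) / ∏ l, evalT t (G l) ^ b l ∈ Subring.closure Sc) :
    ∃ Φ : MvPolynomial (Fin (s + 1)) ℂ, Φ ∉ 𝔭 ∧ ∀ t ∈ Exc, eval t Φ = 0 := by
  classical
  have hcount : {t : Fin (s + 1) → ℂ | ∀ i, t i ∈ K}.Countable := by
    have h1 : (K : Set ℂ).Countable := Set.countable_coe_iff.1 ‹Countable K›
    refine (Set.countable_univ_pi (fun _ : Fin (s + 1) => h1)).mono ?_
    intro t ht i _
    exact ht i
  have hev : ∀ (t : Fin (s + 1) → ℂ) (p : MvPolynomial (Fin (s + 1)) K),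
      eval t (map (algebraMap K ℂ) p) = evalT t p := fun t p => eval_map _ _ _
  let TJ : Set (Fin M) → Set (Fin (s + 1) → ℂ) := fun J =>
    {t | InBase 𝔭 t ∧ (∀ i, t i ∈ K) ∧ (∀ l, evalT t (G l) ≠ 0) ∧
      ∀ a b : Fin M → ℕ, (∀ l, a l ≠ 0 ∨ b l ≠ 0 → l ∈ J) → ∑ l, δ l * a l = ∑ l, δ l * b l →
        (∏ l, evalT t (G l) ^ a l) / ∏ l, evalT t (G l) ^ b l ∈ Subring.closure Sc}
  have hJ : ∀ J : Set (Fin M), ∃ Φ : MvPolynomial (Fin (s + 1)) ℂ, Φ ∉ 𝔭 ∧
      (Related 𝔭 (fun l => map (algebraMap K ℂ) (G l)) J → ∀ t ∈ TJ J, eval t Φ = 0) := by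
    intro J
    by_cases hgp : Related 𝔭 (fun l => map (algebraMap K ℂ) (G l)) J
    swap
    · exact ⟨1, fun h => hp.ne_top ((Ideal.eq_top_iff_one _).2 h), fun h1 => absurd h1 hgp⟩
    obtain ⟨Φ, hΦ, hΦ'⟩ := degenerateB 𝔭 hp h𝔭 Sc hSc (TJ J) (hcount.mono fun t ht => ht.2.1)
      (fun t ht => ht.1) (fun l => map (algebraMap K ℂ) (G l)) δ (fun l => (hG l).map _) J hgp
      (fun t ht l => by
        rw [hev]
        exact ht.2.2.1 l) (fun t ht a b hab hδab => by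
        simp only [hev]
        exact ht.2.2.2 a b hab hδab)
    exact ⟨Φ, hΦ, fun _ => hΦ'⟩
  choose Φ hΦ hΦ' using hJ
  refine ⟨∏ J, Φ J, fun h => ?_, fun t ht => ?_⟩
  · obtain ⟨J, _, hJ⟩ := (Ideal.IsPrime.prod_mem_iff (hp := hp)).1 h
    exact hΦ J hJ
  obtain ⟨h1, h2, h3, J, hJ, h4⟩ := hExc t ht
  rw [map_prod]
  exact Finset.prod_eq_zero (Finset.mem_univ _) (hΦ' J hJ t ⟨h1, h2, h3, h4⟩)

/-- **Families of scaled images over a projective variety**, outside of a proper closed subset. -/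
theorem familyG' (K : Subfield ℂ) [Countable K] {ν : Type} {n k N m s M M' T : ℕ}
    (𝔭 : Ideal (MvPolynomial (Fin (s + 1)) ℂ)) (hp : 𝔭.IsPrime)
    (h𝔭 : ∀ p ∈ 𝔭, ∀ i, homogeneousComponent i p ∈ 𝔭)
    (G : Fin M → MvPolynomial (Fin (s + 1)) K) (δ : Fin M → ℕ) (hδ : ∀ h, 0 < δ h)
    (hG : ∀ h, (G h).IsHomogeneous (δ h)) (U : Finset (Fin M))
    (P : ν → MvPolynomial (Fin (N + 1)) (MvPolynomial (Fin (s + 1)) K))
    (hP : ∀ l, ∃ a b, BiHom (P l) a b)
    (A B : Fin n ⊕ Fin k → MvPolynomial (Fin (N + 1)) (MvPolynomial (Fin (s + 1)) K))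
    (β γ d : Fin n ⊕ Fin k → ℕ) (hA : ∀ i, BiHom (A i) (γ i + β i) (d i))
    (hB : ∀ i, BiHom (B i) (β i) (d i))
    (R : Fin n → Polynomial (Polynomial K)) (hR : ∀ i, (R i).Monic)
    (hT : ∀ i u w, ((R i).coeff u).coeff w ≠ 0 → u ≤ T ∧ w ≤ T)
    (c : Fin n ⊕ Fin k → MvPolynomial (Fin (s + 1)) K) (hc : ∀ i, (c i).IsHomogeneous (γ i))
    (e : Fin M → Fin n ⊕ Fin k → ℕ)
    (hfac : ∀ i, ∃ c₀ : K, c₀ ≠ 0 ∧ map (algebraMap K ℂ) (c i - C c₀ * ∏ h, G h ^ e h i) ∈ 𝔭)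
    (D : Fin M' → Finset (Fin M)) (hind : IndependentAlong T e D)
    (hdis : ∀ l, ∀ h ∈ D l, ∀ h', h' ≠ h → ¬ Meet 𝔭 G U {h, h'})
    (hpos : ∀ l, ∀ h ∈ D l, PositionAlong m 𝔭 G U P A B h)
    (hrel : ∀ I : Finset (Fin M'), M' ≤ I.card + (n.choose 2 + k * 2 ^ k) →
      Related 𝔭 (fun l => map (algebraMap K ℂ) (G l)) {h | h ∈ U ∨ ∃ l ∈ I, h ∈ D l})
    (Γ F : Finset ℂ) (hΓ : ∀ γ ∈ Γ, γ ∈ K) (hF : ∀ z ∈ F, z ∈ K) :
    ∃ Φ : MvPolynomial (Fin (s + 1)) ℂ, Φ ∉ 𝔭 ∧ ∀ t : Fin (s + 1) → ℂ, InBase 𝔭 t →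
      (∀ i, t i ∈ Subfield.closure (F : Set ℂ)) → (∀ h, evalT t (G h) ≠ 0) →
      IntegralAt G δ U (Subring.closure (F : Set ℂ)) t → eval t Φ ≠ 0 →
      NoAtypical (algebraMap (Algebra.adjoin ℤ (Γ : Set ℂ)) ℂ) K m (scaledT t P A B R c) := by
  classical
  obtain ⟨S, hWG, hFS, hcore⟩ := coreG (m := m) K 𝔭 h𝔭 G δ hG U P hP A B β γ d hA hB R hR hT c hc
    e hfac D hind hdis hpos Γ F hΓ hF
  obtain ⟨T', hT'⟩ := Pool.Agent.Y910.Z.exists_closure_val S
  obtain ⟨Φ, hΦ, hΦ'⟩ := zariski 𝔭 hp h𝔭 G δ hG (((↑) : K → ℂ) '' (T' : Set K))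
    (T'.finite_toSet.image _)
    {t | InBase 𝔭 t ∧ (∀ i, t i ∈ Subfield.closure (F : Set ℂ)) ∧ (∀ h, evalT t (G h) ≠ 0) ∧
      IntegralAt G δ U (Subring.closure (F : Set ℂ)) t ∧
      ¬ NoAtypical (algebraMap (Algebra.adjoin ℤ (Γ : Set ℂ)) ℂ) K m (scaledT t P A B R c)} (by
    rintro t ⟨htb, ht, ht0, htU, hno⟩
    have hTSc : ∀ z : K, z ∈ Subring.closure (T' : Set K) →
        (z : ℂ) ∈ Subring.closure (((↑) : K → ℂ) '' (T' : Set K)) := by
      intro z hz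
      have h1 : K.subtype z ∈ (Subring.closure (T' : Set K)).map K.subtype := ⟨z, hz, rfl⟩
      rw [RingHom.map_closure] at h1
      exact h1
    have hlift : ∀ z ∈ Subfield.closure (F : Set ℂ), ∃ z' : K,
        z' ∈ Subfield.closure (S : Set K) ∧ (z' : ℂ) = z := by
      intro z hz
      have h1 : (F : Set ℂ) ⊆ K.subtype '' (S : Set K) := fun w hw =>
        ⟨⟨w, hF w hw⟩, Finset.mem_coe.2 (hFS w hw), rfl⟩
      have h2 := Subfield.closure_mono h1 hz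
      rw [← RingHom.map_field_closure] at h2
      obtain ⟨z', hz', hzz⟩ := Subfield.mem_map.1 h2
      exact ⟨z', hz', hzz⟩
    choose t' ht'1 ht'2 using fun i => hlift (t i) (ht i)
    obtain rfl : (fun i => ((t' i : K) : ℂ)) = t := funext ht'2
    have ht0' : ∀ h, eval t' (G h) ≠ 0 := fun h h0 => ht0 h (by rw [evalT_coe, h0]; rfl)
    let I : Finset (Fin M') := Finset.univ.filter fun l =>
      ∀ h ∈ D l, Flat (S : Set K) t' (δ h) (eval t' (G h))
    have hI : M' ≤ I.card + (n.choose 2 + k * 2 ^ k) := by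
      by_contra hlt
      push Not at hlt
      have hJ : n.choose 2 + k * 2 ^ k + 1 ≤ Iᶜ.card := by
        rw [Finset.card_compl, Fintype.card_fin]
        omega
      obtain ⟨J', hJ', hcd⟩ := Finset.exists_subset_card_eq hJ
      apply hno
      refine hcore _ htb ht0 htU ⟨fun i => (J'.equivFin.symm (Fin.cast hcd.symm i) : Fin M'), ?_,
        fun l => ?_⟩
      · intro a b hab
        have h1 := J'.equivFin.symm.injective (Subtype.ext hab)
        exact Fin.cast_injective _ h1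
      · have h1 := hJ' (J'.equivFin.symm (Fin.cast hcd.symm l)).2
        rw [Finset.mem_compl, Finset.mem_filter] at h1
        push Not at h1
        obtain ⟨h, hh, hflat⟩ := h1 (Finset.mem_univ _)
        refine ⟨h, hh, ?_⟩
        rw [evalT_coe]
        exact near_of_not_flat (hδ h) hflat
    refine ⟨htb, fun i => (t' i).2, ht0, _, hrel I hI, fun a b hab hδab => ?_⟩
    have h1 := hTSc _ (flat_prod hT' ht'1 hG (fun l => hWG l) a b (fun l hl => by
      rcases hab l hl with h1 | ⟨l', hl', h1⟩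
      · exact flat_of_integral hF hFS ht0' htU h1
      · exact (Finset.mem_filter.1 hl').2 l h1) hδab)
    simp only [evalT_coe]
    push_cast at h1
    exact h1)
  refine ⟨Φ, hΦ, fun t htb ht ht0 htU hΦt => ?_⟩
  by_contra hno
  exact hΦt (hΦ' t ⟨htb, ht, ht0, htU, hno⟩)

end Pool.Agent.K6.H79.ZP
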