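import Pool.Agent.R424.TG.Local

/-!
The values of the coordinates of a point at a place, if the coefficients of the equations are products of
powers of several numbers whose values are not commensurable (helper file).
-/

set_option autoImplicit false

namespace Pool.Agent.K6.H79.ZP

open MvPolynomial Pool.Agent.W282.ZP Pool.Agent.TH526.ZL Pool.Agent.R424.FD Pool.Agent.R424.TG

theorem exists_den {M : ℕ} (a : Fin M → ℚ) (ha : ∀ h, 0 ≤ a h) :
    ∃ (D : ℕ) (m : Fin M → ℕ), 0 < D ∧ ∀ h, (D : ℚ) * a h = m h := by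
  classical
  have h1 : ∀ h, ∃ m : ℕ, ((∏ h, (a h).den : ℕ) : ℚ) * a h = m := by
    intro h
    obtain ⟨c, hc⟩ := Finset.dvd_prod_of_mem (fun h => (a h).den) (Finset.mem_univ h)
    have h2 : 0 ≤ (a h).num := Rat.num_nonneg.2 (ha h)
    refine ⟨c * (a h).num.toNat, ?_⟩
    have h3 : (((a h).num.toNat : ℕ) : ℚ) = ((a h).num : ℚ) := by
      have h4 : (((a h).num.toNat : ℕ) : ℤ) = (a h).num := Int.toNat_of_nonneg h2
      exact_mod_cast congrArg (fun z : ℤ => (z : ℚ)) h4
    have h5 : ((a h).den : ℚ) * a h = (a h).num := by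
      rw [mul_comm]
      exact Rat.mul_den_eq_num _
    rw [hc]
    push_cast
    rw [h3, ← h5]
    ring
  choose m hm using h1
  exact ⟨_, m, Finset.prod_pos fun h _ => (a h).den_pos, hm⟩

theorem smul_le_smul_top {D : ℕ} {x y : WithTop ℚ} (h : x ≤ y) : D • x ≤ D • y :=
  nsmul_le_nsmul_right h D

theorem smul_coe (D : ℕ) (u : ℚ) : D • (u : WithTop ℚ) = ((D * u : ℚ) : WithTop ℚ) := by
  rw [← WithTop.coe_nsmul, nsmul_eq_mul]

theorem compatible_smul {n k N r : ℕ} {cls : Fin n → Option (Fin r)} {d : Fin n → ℕ}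
    {L : Submodule ℚ (Fin k → ℚ)} {w : (Fin n ⊕ Fin k) ⊕ Fin N → WithTop ℚ}
    (h : Compatible cls d L w) {D : ℕ} (hD : 0 < D) : Compatible cls d L (fun i => D • w i) := by
  have hD' : (0 : ℚ) < D := by exact_mod_cast hD
  obtain ⟨h1, h2, u, hu, h3⟩ := h
  have h0 : ∀ x : WithTop ℚ, 0 ≤ x → 0 ≤ D • x := fun x hx => by
    have h4 := smul_le_smul_top (D := D) hx
    rwa [smul_zero] at h4
  refine ⟨fun i hi => h0 _ (h1 i hi), fun i j c hi hj => ?_, (D : ℚ) • u, L.smul_mem _ hu,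
    fun j => ?_⟩
  · rcases h2 i j c hi hj with ⟨h4, h5⟩ | ⟨x, y, hx, hy, hx0, hy0, hsq⟩
    · exact Or.inl ⟨h0 _ h4, h0 _ h5⟩
    · refine Or.inr ⟨D * x, D * y, ?_, ?_, mul_neg_of_pos_of_neg hD' hx0,
        mul_neg_of_pos_of_neg hD' hy0, ?_⟩
      · change D • w (Sum.inl (Sum.inl i)) = _
        rw [hx, smul_coe]
      · change D • w (Sum.inl (Sum.inl j)) = _
        rw [hy, smul_coe]
      · obtain ⟨c, hc⟩ := hsq
        refine ⟨D * c, ?_⟩
        calc (d i : ℚ) * d j * (D * x * (D * y)) = D * D * (d i * d j * (x * y)) := by ring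
          _ = _ := by rw [hc]; ring
  · change D • w (Sum.inl (Sum.inr j)) = _
    rw [h3, smul_coe]
    rfl

/-- The exponents with the additional coordinates `g h`, `h ≠ l`. -/
noncomputable def extE {σ : Type} [Finite σ] {M : ℕ} (l : Fin M) (E : Fin M → ℕ) (β : σ →₀ ℕ) :
    σ ⊕ Fin M →₀ ℕ :=
  Finsupp.equivFunOnFinite.symm (Sum.elim β fun h => if h = l then 0 else E h)

noncomputable def resE {σ : Type} [Finite σ] {M : ℕ} (β : σ ⊕ Fin M →₀ ℕ) : σ →₀ ℕ :=
  Finsupp.equivFunOnFinite.symm fun i => β (Sum.inl i)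

theorem extE_inl {σ : Type} [Finite σ] {M : ℕ} (l : Fin M) (E : Fin M → ℕ) (β : σ →₀ ℕ) (i : σ) :
    extE l E β (Sum.inl i) = β i := rfl

theorem extE_inr {σ : Type} [Finite σ] {M : ℕ} (l : Fin M) (E : Fin M → ℕ) (β : σ →₀ ℕ)
    (h : Fin M) : extE l E β (Sum.inr h) = if h = l then 0 else E h := rfl

theorem resE_extE {σ : Type} [Finite σ] {M : ℕ} (l : Fin M) (E : Fin M → ℕ) (β : σ →₀ ℕ) :
    resE (extE l E β) = β := by
  ext i
  rfl

/-- The values of the coordinates of a point on a special subvariety of a given type give a compatible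
point of the tropicalization, where the numbers `g h` are replaced by rational weights. -/
theorem compat_pointM {n k N r M : ℕ} (V : ValuationSubring ℂ) (g : Fin M → ℂ)
    (hg0 : ∀ h, g h ≠ 0) (hg1 : ∀ h, V.valuation (g h) ≤ 1) (l : Fin M)
    (hl : V.valuation (g l) < 1) {κ : Type} [Finite κ]
    (supp : κ → Finset (((Fin n ⊕ Fin k) ⊕ Fin N) →₀ ℕ))
    (b : κ → (((Fin n ⊕ Fin k) ⊕ Fin N) →₀ ℕ) → ℂ)
    (e : Fin M → κ → (((Fin n ⊕ Fin k) ⊕ Fin N) →₀ ℕ) → ℕ)
    (hb : ∀ q, ∀ β ∈ supp q, V.valuation (b q β) = ∏ h, V.valuation (g h) ^ e h q β)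
    (z : (Fin n ⊕ Fin k) ⊕ Fin N → ℂ) (hz : ∀ q, ∑ β ∈ supp q, b q β * ∏ i, z i ^ β i = 0)
    (cls : Fin n → Option (Fin r)) (d : Fin n → ℕ) (hd : ∀ i, 0 < d i)
    (hsmall : ∀ i, cls i = none → V.valuation (z (Sum.inl (Sum.inl i))) ≤ 1)
    (hrel : ∀ i j c, cls i = some c → cls j = some c →
      Polynomial.eval₂ (Polynomial.aeval (z (Sum.inl (Sum.inl i))) :
        Polynomial ℂ →ₐ[ℂ] ℂ).toRingHom (z (Sum.inl (Sum.inl j))) (Psi (d i * d j)) = 0)
    (hx0 : ∀ j, z (Sum.inl (Sum.inr j)) ≠ 0) (M' : Submodule ℤ (Fin k → ℤ))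
    (hM : ∀ c ∈ M', ∏ j, V.valuation (z (Sum.inl (Sum.inr j))) ^ c j = 1) :
    ∃ (a : Fin M → ℕ) (w : (Fin n ⊕ Fin k) ⊕ Fin N → WithTop ℚ), 0 < a l ∧
      (∀ h, 0 < a h → V.valuation (g h) < 1) ∧
      (∀ q, TropAt (supp q) (fun β => ∑ h, a h * e h q β) w) ∧
      Compatible cls d (Pool.Agent.Y199.ZF.perp M') w := by
  classical
  set v := V.valuation with hv
  have hQ : ∀ i j, 0 < d i * d j := fun i j => Nat.mul_pos (hd i) (hd j)
  let Z : ((Fin n ⊕ Fin k) ⊕ Fin N) ⊕ Fin M → ℂ := Sum.elim z g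
  let xx : Fin n → ℂ := fun i => z (Sum.inl (Sum.inl i))
  let I1 := {i : Fin n // xx i ≠ 0 ∧ v (xx i) ≤ 1}
  let I2 := {p : Fin n × Fin n // (∃ c, cls p.1 = some c ∧ cls p.2 = some c) ∧ 1 < v (xx p.1)}
  let I4 := {h : Fin M // v (g h) = 1}
  have hA : ∀ p : I2, ∃ a : ℕ, v (xx p.1.2) ^ (d p.1.1 * d p.1.2) = v (xx p.1.1) ^ (a ^ 2) := by
    rintro ⟨⟨i, j⟩, ⟨c, hi, hj⟩, h⟩
    exact ((Psi_spec (hQ i j)).2.2 ℂ V _ _ (hrel i j c hi hj)).2 h
  choose A hA using hA
  have hgt : ∀ p : I2, 1 < v (xx p.1.2) := by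
    rintro ⟨⟨i, j⟩, ⟨c, hi, hj⟩, h⟩
    by_contra h1
    push Not at h1
    exact absurd (((Psi_spec (hQ j i)).2.2 ℂ V _ _ (hrel j i c hj hi)).1 h1) (not_le.2 h)
  have hA0 : ∀ p : I2, A p ≠ 0 := by
    intro p h0
    have h1 := hA p
    rw [h0, zero_pow two_ne_zero, pow_zero] at h1
    have h2 := one_lt_pow₀ (hgt p) (hQ p.1.1 p.1.2).ne'
    rw [h1] at h2
    exact lt_irrefl _ h2
  let B := Module.Free.chooseBasis ℤ M'
  let I3 := Module.Free.ChooseBasisIndex ℤ M'
  let ext : (Fin k → ℤ) → (((Fin n ⊕ Fin k) ⊕ Fin N) ⊕ Fin M → ℤ) := fun c =>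
    Sum.elim (Sum.elim (Sum.elim 0 c) 0) 0
  let ix : Fin n → ((Fin n ⊕ Fin k) ⊕ Fin N) ⊕ Fin M := fun i => Sum.inl (Sum.inl (Sum.inl i))
  let vec : I1 ⊕ ((I2 ⊕ I2) ⊕ ((I3 ⊕ I3) ⊕ (Fin M ⊕ I4))) →
      (((Fin n ⊕ Fin k) ⊕ Fin N) ⊕ Fin M → ℤ) :=
    Sum.elim (fun i => Pi.single (ix i.1) 1)
      (Sum.elim (Sum.elim
        (fun p => Pi.single (ix p.1.2) ((d p.1.1 * d p.1.2 : ℕ) : ℤ) -
          Pi.single (ix p.1.1) (((A p) ^ 2 : ℕ) : ℤ))
        (fun p => Pi.single (ix p.1.1) (((A p) ^ 2 : ℕ) : ℤ) -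
          Pi.single (ix p.1.2) ((d p.1.1 * d p.1.2 : ℕ) : ℤ)))
        (Sum.elim (Sum.elim (fun c => ext (B c : Fin k → ℤ)) (fun c => ext (-(B c : Fin k → ℤ))))
          (Sum.elim (fun h => Pi.single (Sum.inr h) 1) (fun h => Pi.single (Sum.inr h.1) (-1)))))
  have hyx : ∀ i, xx i ≠ 0 → yv V Z (ix i) = v (xx i) := fun i h => yv_of_ne V h
  have hyg : ∀ h, yv V Z (Sum.inr h) = v (g h) := fun h => yv_of_ne V (hg0 h)
  have hne : ∀ i, 1 < v (xx i) → xx i ≠ 0 := by
    intro i h h0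
    rw [h0, map_zero] at h
    exact absurd h (not_lt.2 zero_le_one)
  have hext : ∀ c : Fin k → ℤ, ∏ l, yv V Z l ^ ext c l =
      ∏ j, v (z (Sum.inl (Sum.inr j))) ^ c j := by
    intro c
    rw [Fintype.prod_sum_type, Fintype.prod_sum_type, Fintype.prod_sum_type]
    have h1 : ∏ a, yv V Z (Sum.inl (Sum.inl (Sum.inl a))) ^
        ext c (Sum.inl (Sum.inl (Sum.inl a))) = 1 := Finset.prod_eq_one fun a _ => zpow_zero _
    have h2 : ∏ a, yv V Z (Sum.inl (Sum.inr a)) ^ ext c (Sum.inl (Sum.inr a)) = 1 :=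
      Finset.prod_eq_one fun a _ => zpow_zero _
    have h3 : ∏ a, yv V Z (Sum.inr a) ^ ext c (Sum.inr a) = 1 :=
      Finset.prod_eq_one fun a _ => zpow_zero _
    rw [h1, h2, h3, one_mul, mul_one, mul_one]
    refine Finset.prod_congr rfl fun j _ => ?_
    have h4 : yv V Z (Sum.inl (Sum.inl (Sum.inr j))) = v (z (Sum.inl (Sum.inr j))) :=
      yv_of_ne V (hx0 j)
    rw [h4]
    rfl
  have hprod0 : ∀ (E : Fin M → ℕ), ∏ h, (if h = l then (1 : ℂ) else g h ^ E h) ≠ 0 := by
    intro E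
    refine Finset.prod_ne_zero_iff.2 fun h _ => ?_
    split_ifs
    · exact one_ne_zero
    · exact pow_ne_zero _ (hg0 h)
  -- the extended system
  let supp' : κ → Finset ((((Fin n ⊕ Fin k) ⊕ Fin N) ⊕ Fin M) →₀ ℕ) := fun q =>
    (supp q).image fun β => extE l (fun h => e h q β) β
  let b' : κ → ((((Fin n ⊕ Fin k) ⊕ Fin N) ⊕ Fin M) →₀ ℕ) → ℂ := fun q β' =>
    b q (resE β') / ∏ h, (if h = l then (1 : ℂ) else g h ^ e h q (resE β'))
  let e' : κ → ((((Fin n ⊕ Fin k) ⊕ Fin N) ⊕ Fin M) →₀ ℕ) → ℕ := fun q β' => e l q (resE β')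
  obtain ⟨w, u, hw0, hw1, htrop, hu⟩ := local_point V (v (g l))
    ((Valuation.ne_zero_iff _).2 (hg0 l)) hl supp' b' e' (fun q β' hβ' => by
      obtain ⟨β, hβ, rfl⟩ := Finset.mem_image.1 hβ'
      simp only [b', e', resE_extE]
      rw [map_div₀, ← hv, hb q β hβ, map_prod]
      have h1 : ∀ h, v (if h = l then (1 : ℂ) else g h ^ e h q β) =
          if h = l then 1 else v (g h) ^ e h q β := by
        intro h
        split_ifs
        · exact map_one v
        · exact map_pow v _ _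
      rw [Finset.prod_congr rfl fun h _ => h1 h]
      have h2 : ∏ h, v (g h) ^ e h q β = v (g l) ^ e l q β *
          ∏ h, (if h = l then 1 else v (g h) ^ e h q β) := by
        rw [← Finset.mul_prod_erase _ _ (Finset.mem_univ l),
          ← Finset.mul_prod_erase Finset.univ (fun h => if h = l then 1 else v (g h) ^ e h q β)
            (Finset.mem_univ l), if_pos rfl, one_mul]
        congr 1
        refine Finset.prod_congr rfl fun h hh => ?_
        rw [if_neg (Finset.ne_of_mem_erase hh)]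
      rw [h2, mul_div_assoc, div_self, mul_one]
      refine Finset.prod_ne_zero_iff.2 fun h _ => ?_
      split_ifs
      · exact one_ne_zero
      · exact pow_ne_zero _ ((Valuation.ne_zero_iff _).2 (hg0 h)))
    Z (fun q => by
      rw [Finset.sum_image (fun β _ β' _ h => by
        have h1 := congrArg resE h
        simp only [resE_extE] at h1
        exact h1), ← hz q]
      refine Finset.sum_congr rfl fun β hβ => ?_
      simp only [b', resE_extE]
      rw [Fintype.prod_sum_type]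
      have h1 : ∏ h, Z (Sum.inr h) ^ (extE l (fun h => e h q β) β) (Sum.inr h) =
          ∏ h, (if h = l then (1 : ℂ) else g h ^ e h q β) := by
        refine Finset.prod_congr rfl fun h _ => ?_
        rw [extE_inr]
        split_ifs
        · rw [pow_zero]
        · rfl
      rw [h1, ← mul_assoc, div_mul_eq_mul_div, div_mul_cancel₀ _ (hprod0 _)]
      rfl)
    vec (by
      rintro (i | ((p | p) | ((c | c) | (h | h))))
      · change ∏ l, yv V Z l ^ ((Pi.single (ix i.1) (1 : ℤ) :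
          ((Fin n ⊕ Fin k) ⊕ Fin N) ⊕ Fin M → ℤ) l) ≤ 1
        rw [prod_single, zpow_one, hyx _ i.2.1]
        exact i.2.2
      · change ∏ l, yv V Z l ^ ((Pi.single (ix p.1.2)
          ((d p.1.1 * d p.1.2 : ℕ) : ℤ) - Pi.single (ix p.1.1)
            (((A p) ^ 2 : ℕ) : ℤ) : ((Fin n ⊕ Fin k) ⊕ Fin N) ⊕ Fin M → ℤ) l) ≤ 1
        rw [prod_single_sub _ (yv_ne V Z), zpow_natCast, zpow_natCast, hyx _ (hne _ (hgt p)),
          hyx _ (hne _ p.2.2), hA p]
        exact (div_self (pow_ne_zero _ ((Valuation.ne_zero_iff _).2 (hne _ p.2.2)))).le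
      · change ∏ l, yv V Z l ^ ((Pi.single (ix p.1.1)
            (((A p) ^ 2 : ℕ) : ℤ) - Pi.single (ix p.1.2)
          ((d p.1.1 * d p.1.2 : ℕ) : ℤ) : ((Fin n ⊕ Fin k) ⊕ Fin N) ⊕ Fin M → ℤ) l) ≤ 1
        rw [prod_single_sub _ (yv_ne V Z), zpow_natCast, zpow_natCast, hyx _ (hne _ (hgt p)),
          hyx _ (hne _ p.2.2), hA p]
        exact (div_self (pow_ne_zero _ ((Valuation.ne_zero_iff _).2 (hne _ p.2.2)))).le
      · change ∏ l, yv V Z l ^ (ext (B c : Fin k → ℤ)) l ≤ 1
        rw [hext, hM _ (B c).2]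
      · change ∏ l, yv V Z l ^ (ext (-(B c : Fin k → ℤ))) l ≤ 1
        rw [hext, hM _ (M'.neg_mem (B c).2)]
      · change ∏ l, yv V Z l ^ ((Pi.single (Sum.inr h) (1 : ℤ) :
          ((Fin n ⊕ Fin k) ⊕ Fin N) ⊕ Fin M → ℤ) l) ≤ 1
        rw [prod_single, zpow_one, hyg]
        exact hg1 h
      · change ∏ l, yv V Z l ^ ((Pi.single (Sum.inr h.1) (-1 : ℤ) :
          ((Fin n ⊕ Fin k) ⊕ Fin N) ⊕ Fin M → ℤ) l) ≤ 1
        rw [prod_single, hyg, h.2, one_zpow])
  -- the compatible point before scaling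
  have hcomp : Compatible cls d (Pool.Agent.Y199.ZF.perp M')
      (fun i => w (Sum.inl i) : (Fin n ⊕ Fin k) ⊕ Fin N → WithTop ℚ) := by
    refine ⟨fun i hi => ?_, fun i j c hi hj => ?_, ?_⟩
    · change 0 ≤ w (ix i)
      by_cases h0 : xx i = 0
      · rw [hw0 (ix i) h0]
        exact le_top
      · have h1 := hu (Sum.inl ⟨i, h0, hsmall i hi⟩)
        simp only [vec, Sum.elim_inl] at h1
        rw [sum_single, Int.cast_one, one_mul] at h1
        rw [hw1 (ix i) h0]
        exact_mod_cast h1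
    · change (0 ≤ w (ix i) ∧ 0 ≤ w (ix j)) ∨
        ∃ u v : ℚ, w (ix i) = (u : WithTop ℚ) ∧ w (ix j) = (v : WithTop ℚ) ∧
          u < 0 ∧ v < 0 ∧ IsSquare ((d i : ℚ) * d j * (u * v))
      have hsm : ∀ i, v (xx i) ≤ 1 → 0 ≤ w (ix i) := by
        intro i h2
        by_cases h0 : xx i = 0
        · rw [hw0 (ix i) h0]
          exact le_top
        · have h1 := hu (Sum.inl ⟨i, h0, h2⟩)
          simp only [vec, Sum.elim_inl] at h1
          rw [sum_single, Int.cast_one, one_mul] at h1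
          rw [hw1 (ix i) h0]
          exact_mod_cast h1
      by_cases hl : v (xx i) ≤ 1
      · left
        exact ⟨hsm i hl, hsm j (((Psi_spec (hQ i j)).2.2 ℂ V _ _ (hrel i j c hi hj)).1 hl)⟩
      · push Not at hl
        let p : I2 := ⟨(i, j), ⟨c, hi, hj⟩, hl⟩
        have hp0 : (0 : ℚ) < ((A p : ℚ)) ^ 2 := by
          have := Nat.pos_of_ne_zero (hA0 p)
          positivity
        have hN0 : (0 : ℚ) < (d i : ℚ) * d j := by
          have h1 := hd i
          have h2 := hd j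
          positivity
        have h1 := hu (Sum.inr (Sum.inl (Sum.inl p)))
        have h2 := hu (Sum.inr (Sum.inl (Sum.inr p)))
        simp only [vec, Sum.elim_inl, Sum.elim_inr] at h1 h2
        rw [sum_single_sub] at h1 h2
        push_cast at h1 h2
        have h3 : (d i : ℚ) * d j * u (ix j) = (A p : ℚ) ^ 2 * u (ix i) :=
          le_antisymm (by linarith) (by linarith)
        have hwi := hw1 (ix i) (hne i hl)
        have hwj := hw1 (ix j) (hne j (hgt p))
        by_cases hneg : u (ix i) < 0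
        · right
          have h4 : u (ix j) < 0 := by
            by_contra h5
            push Not at h5
            have h6 := mul_nonneg hN0.le h5
            rw [h3] at h6
            have h7 := mul_neg_of_pos_of_neg hp0 hneg
            linarith
          refine ⟨_, _, hwi, hwj, hneg, h4, ⟨(A p : ℚ) * u (ix i), ?_⟩⟩
          calc (d i : ℚ) * d j * (u (ix i) * u (ix j))
              = u (ix i) * ((d i : ℚ) * d j * u (ix j)) := by ring
            _ = _ := by
              rw [h3]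
              ring
        · left
          push Not at hneg
          have h4 : 0 ≤ u (ix j) := by
            by_contra h5
            push Not at h5
            have h6 := mul_neg_of_pos_of_neg hN0 h5
            rw [h3] at h6
            have h7 := mul_nonneg hp0.le hneg
            linarith
          rw [hwi, hwj]
          exact ⟨by exact_mod_cast hneg, by exact_mod_cast h4⟩
    · refine ⟨fun j => u (Sum.inl (Sum.inl (Sum.inr j))), ?_,
        fun j => hw1 (Sum.inl (Sum.inl (Sum.inr j))) (hx0 j)⟩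
      refine Pool.Agent.Y199.ZF.mem_perp_of_basis B fun i => ?_
      have hsum : ∀ c : Fin k → ℤ, ∑ l, ((ext c l : ℤ) : ℚ) * u l =
          ∑ j, (c j : ℚ) * u (Sum.inl (Sum.inl (Sum.inr j))) := by
        intro c
        rw [Fintype.sum_sum_type, Fintype.sum_sum_type, Fintype.sum_sum_type]
        simp [ext]
      have h1 := hu (Sum.inr (Sum.inr (Sum.inl (Sum.inl i))))
      have h2 := hu (Sum.inr (Sum.inr (Sum.inl (Sum.inr i))))
      simp only [vec, Sum.elim_inl, Sum.elim_inr] at h1 h2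
      rw [hsum] at h1 h2
      simp only [Pi.neg_apply, Int.cast_neg, neg_mul, Finset.sum_neg_distrib] at h2
      linarith
  -- the weights of the numbers `g h`
  have hug : ∀ h, 0 ≤ u (Sum.inr h) := by
    intro h
    have h1 := hu (Sum.inr (Sum.inr (Sum.inr (Sum.inl h))))
    simp only [vec, Sum.elim_inl, Sum.elim_inr] at h1
    rw [sum_single, Int.cast_one, one_mul] at h1
    exact h1
  have hug0 : ∀ h, v (g h) = 1 → u (Sum.inr h) = 0 := by
    intro h h0
    have h1 := hu (Sum.inr (Sum.inr (Sum.inr (Sum.inr ⟨h, h0⟩))))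
    simp only [vec, Sum.elim_inl, Sum.elim_inr] at h1
    rw [sum_single] at h1
    push_cast at h1
    have h2 := hug h
    linarith
  let a' : Fin M → ℚ := fun h => if h = l then 1 else u (Sum.inr h)
  have ha' : ∀ h, 0 ≤ a' h := by
    intro h
    simp only [a']
    split_ifs
    · exact zero_le_one
    · exact hug h
  obtain ⟨D, a, hD, haD⟩ := exists_den a' ha'
  have hD' : (0 : ℚ) < D := by exact_mod_cast hD
  have hwg : ∀ h, w (Sum.inr h) = (u (Sum.inr h) : WithTop ℚ) := fun h => hw1 (Sum.inr h) (hg0 h)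
  have hval : ∀ q β, D • value w (extE l (fun h => e h q β) β)
      (e' q (extE l (fun h => e h q β) β)) =
      value (fun i => D • w (Sum.inl i)) β (∑ h, a h * e h q β) := by
    intro q β
    rw [value, value, nsmul_add, Fintype.sum_sum_type, nsmul_add]
    have h1 : D • ∑ i, (extE l (fun h => e h q β) β) (Sum.inl i) • w (Sum.inl i) =
        ∑ i, β i • D • w (Sum.inl i) := by
      rw [Finset.smul_sum]
      refine Finset.sum_congr rfl fun i _ => ?_
      rw [extE_inl, smul_comm]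
    have h2 : D • ∑ h, (extE l (fun h => e h q β) β) (Sum.inr h) • w (Sum.inr h) =
        ((∑ h, (D : ℚ) * ((if h = l then 0 else (e h q β : ℚ)) * u (Sum.inr h)) : ℚ) :
          WithTop ℚ) := by
      rw [Finset.smul_sum, WithTop.coe_sum]
      refine Finset.sum_congr rfl fun h _ => ?_
      rw [hwg, smul_coe, smul_coe, extE_inr]
      congr 2
      split_ifs
      · rw [Nat.cast_zero]
      · rfl
    rw [h1, h2, smul_coe, add_comm (∑ i, β i • D • w (Sum.inl i)), ← add_assoc,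
      ← WithTop.coe_add]
    congr 2
    simp only [e', resE_extE]
    push_cast
    have h3 : ∀ h, (a h : ℚ) * (e h q β : ℚ) = (if h = l then (D : ℚ) * e l q β else 0) +
        D * ((if h = l then 0 else (e h q β : ℚ)) * u (Sum.inr h)) := by
      intro h
      rw [← haD h]
      simp only [a']
      by_cases hh : h = l
      · subst hh
        rw [if_pos rfl, if_pos rfl, if_pos rfl]
        ring
      · rw [if_neg hh, if_neg hh, if_neg hh]
        ring
    rw [Finset.sum_congr rfl fun h _ => h3 h, Finset.sum_add_distrib,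
      Finset.sum_ite_eq' Finset.univ l, if_pos (Finset.mem_univ _)]
  refine ⟨a, fun i => D • w (Sum.inl i), ?_, fun h hh => ?_, fun q => ?_,
    compatible_smul hcomp hD⟩
  · have h1 := haD l
    have h3 : a' l = 1 := if_pos rfl
    rw [h3, mul_one] at h1
    have h2 : D = a l := by exact_mod_cast h1
    omega
  · by_contra hcon
    push Not at hcon
    have h1 : v (g h) = 1 := le_antisymm (hg1 h) hcon
    have hne : h ≠ l := by
      rintro rfl
      rw [h1] at hl
      exact lt_irrefl _ hl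
    have h2 := haD h
    have h4 : a' h = u (Sum.inr h) := if_neg hne
    rw [h4, hug0 h h1, mul_zero] at h2
    have h3 : a h = 0 := by exact_mod_cast h2.symm
    omega
  · rcases htrop q with h | ⟨x, hx, y, hy, hxy, heq, hle⟩
    · left
      intro β hβ
      rw [← hval, h _ (Finset.mem_image_of_mem _ hβ)]
      exact nsmul_top' hD.ne'
    · right
      obtain ⟨β, hβ, rfl⟩ := Finset.mem_image.1 hx
      obtain ⟨β', hβ', rfl⟩ := Finset.mem_image.1 hy
      refine ⟨β, hβ, β', hβ', fun h => hxy (by rw [h]), ?_, fun γ hγ => ?_⟩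
      · rw [← hval, ← hval, heq]
      · rw [← hval, ← hval]
        exact smul_le_smul_top (hle _ (Finset.mem_image_of_mem _ hγ))

end Pool.Agent.K6.H79.ZP
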