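import Pool.Agent.K6.H79.ZP.Uni

/-!
Points of a projective variety at which quotients of forms are units of a finitely generated ring: they
are not Zariski dense, if there is a relation between the forms (helper file).
-/

set_option autoImplicit false

namespace Pool.Agent.K6.H79.ZP

open Filter MvPolynomial Pool.Agent.N754.FG

/-- There is a relation between the forms `G l`, `l ∈ J`, on the variety with the ideal `𝔭`, in which
one of the monomials is not proportional to any other monomial on this variety. -/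
def Related {s M : ℕ} (𝔭 : Ideal (MvPolynomial (Fin (s + 1)) ℂ))
    (G : Fin M → MvPolynomial (Fin (s + 1)) ℂ) (J : Set (Fin M)) : Prop :=
  ∃ R : MvPolynomial (Fin M) ℂ, aeval G R ∈ 𝔭 ∧ (∀ a ∈ R.support, ∀ l, a l ≠ 0 → l ∈ J) ∧
    ∃ a₀ ∈ R.support, ∀ a ∈ R.support, a ≠ a₀ → ∀ c : ℂ,
      ∏ l, G l ^ a l - C c * ∏ l, G l ^ a₀ l ∉ 𝔭

/-- **Points at which quotients of forms are units are not Zariski dense.** -/
theorem degenerateB {s M : ℕ} (𝔭 : Ideal (MvPolynomial (Fin (s + 1)) ℂ)) (hp : 𝔭.IsPrime)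
    (h𝔭 : ∀ p ∈ 𝔭, ∀ i, homogeneousComponent i p ∈ 𝔭) (S : Set ℂ) (hS : S.Finite)
    (T : Set (Fin (s + 1) → ℂ)) (hT : T.Countable) (hT𝔭 : ∀ t ∈ T, ∀ p ∈ 𝔭, eval t p = 0)
    (G : Fin M → MvPolynomial (Fin (s + 1)) ℂ) (δ : Fin M → ℕ) (hG : ∀ l, (G l).IsHomogeneous (δ l))
    (J : Set (Fin M)) (hJ : Related 𝔭 G J) (hne : ∀ t ∈ T, ∀ l, eval t (G l) ≠ 0)
    (hu : ∀ t ∈ T, ∀ a b : Fin M → ℕ, (∀ l, a l ≠ 0 ∨ b l ≠ 0 → l ∈ J) →
      ∑ l, δ l * a l = ∑ l, δ l * b l →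
      (∏ l, eval t (G l) ^ a l) / ∏ l, eval t (G l) ^ b l ∈ Subring.closure S) :
    ∃ Φ : MvPolynomial (Fin (s + 1)) ℂ, Φ ∉ 𝔭 ∧ ∀ t ∈ T, eval t Φ = 0 := by
  classical
  rcases T.eq_empty_or_nonempty with hT0 | hT0
  · exact ⟨1, fun h => hp.ne_top ((Ideal.eq_top_iff_one _).2 h), by simp [hT0]⟩
  obtain ⟨Y, hY⟩ := hT.exists_eq_range hT0
  obtain ⟨R, hR, hRJ, a₀, ha₀, hiso⟩ := hJ
  let D : ℕ := ∑ l, δ l * a₀ l
  let B : Finset (Fin M →₀ ℕ) := R.support.filter fun a => ∑ l, δ l * a l = D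
  have ha₀B : a₀ ∈ B := Finset.mem_filter.2 ⟨ha₀, rfl⟩
  -- the component of the relation
  have hhom : ∀ a : Fin M →₀ ℕ, (∏ l, G l ^ a l).IsHomogeneous (∑ l, δ l * a l) := fun a =>
    IsHomogeneous.prod _ _ _ fun l _ => (hG l).pow _
  have hrel : ∀ t ∈ T, ∑ a ∈ B, R.coeff a * ∏ l, eval t (G l) ^ a l = 0 := by
    intro t ht
    have h1 := hT𝔭 t ht _ (h𝔭 _ hR D)
    have h2 : aeval G R = ∑ a ∈ R.support, C (R.coeff a) * ∏ l, G l ^ a l := by
      rw [aeval_def, eval₂_eq']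
      rfl
    rw [h2, map_sum] at h1
    have h3 : ∀ a ∈ R.support, homogeneousComponent D (C (R.coeff a) * ∏ l, G l ^ a l) =
        if ∑ l, δ l * a l = D then C (R.coeff a) * ∏ l, G l ^ a l else 0 := by
      intro a _
      rw [homogeneousComponent_C_mul, homogeneousComponent_of_mem
        ((mem_homogeneousSubmodule _ _).2 (hhom a))]
      by_cases h : ∑ l, δ l * a l = D
      · rw [if_pos h, if_pos h.symm]
      · rw [if_neg h, if_neg (fun h' => h h'.symm), mul_zero]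
    rw [Finset.sum_congr rfl h3, ← Finset.sum_filter, map_sum] at h1
    rw [← h1]
    refine Finset.sum_congr rfl fun a _ => ?_
    rw [map_mul, eval_C, map_prod]
    simp only [map_pow]
  by_contra hcon
  push Not at hcon
  -- the ultrafilter which avoids the hypersurfaces
  obtain ⟨𝒰, h𝒰⟩ := Ultrafilter.exists_ultrafilter_of_finite_inter_nonempty
    {A : Set ℕ | ∃ Φ : MvPolynomial (Fin (s + 1)) ℂ, Φ ∉ 𝔭 ∧ A = {k | eval (Y k) Φ ≠ 0}} (by
      intro 𝒯 h𝒯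
      have h1 : ∀ A : 𝒯, ∃ Φ : MvPolynomial (Fin (s + 1)) ℂ, Φ ∉ 𝔭 ∧
        (A : Set ℕ) = {k | eval (Y k) Φ ≠ 0} := fun A => h𝒯 A.2
      choose Φ hΦ hA using h1
      obtain ⟨t, ht, ht0⟩ := hcon (∏ A, Φ A) (by
        intro h
        obtain ⟨A, _, hA'⟩ := (Ideal.IsPrime.prod_mem_iff (hp := hp)).1 h
        exact hΦ A hA')
      rw [hY] at ht
      obtain ⟨k, rfl⟩ := ht
      refine ⟨k, Set.mem_sInter.2 fun A hA' => ?_⟩
      have h5 : A = {k | eval (Y k) (Φ ⟨A, hA'⟩) ≠ 0} := hA ⟨A, hA'⟩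
      rw [h5]
      rw [map_prod] at ht0
      exact Finset.prod_ne_zero_iff.1 ht0 ⟨A, hA'⟩ (Finset.mem_univ _))
  have hYT : ∀ k, Y k ∈ T := fun k => by rw [hY]; exact ⟨k, rfl⟩
  have havoid : ∀ Φ : MvPolynomial (Fin (s + 1)) ℂ,
      (∀ᶠ k in (𝒰 : Filter ℕ), eval (Y k) Φ = 0) → Φ ∈ 𝔭 := by
    intro Φ h1
    by_contra h2
    have h3 : {k | eval (Y k) Φ ≠ 0} ∈ 𝒰 := h𝒰 ⟨Φ, h2, rfl⟩
    obtain ⟨k, hk1, hk2⟩ := 𝒰.nonempty_of_mem (𝒰.inter_mem h3 h1)
    exact hk1 hk2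
  have hmne : ∀ (a : Fin M →₀ ℕ) k, ∏ l, eval (Y k) (G l) ^ a l ≠ 0 := fun a k =>
    Finset.prod_ne_zero_iff.2 fun l _ => pow_ne_zero _ (hne _ (hYT k) l)
  let g : B → ℕ → ℂ := fun a k =>
    (∏ l, eval (Y k) (G l) ^ (a : Fin M →₀ ℕ) l) / ∏ l, eval (Y k) (G l) ^ a₀ l
  have hsupp : ∀ a ∈ B, ∀ l, a l ≠ 0 → l ∈ J := fun a ha => hRJ a (Finset.mem_filter.1 ha).1
  have hg : ∀ a k, g a k ≠ 0 ∧ g a k ∈ Subring.closure S ∧ (g a k)⁻¹ ∈ Subring.closure S := by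
    intro a k
    have h1 : ∑ l, δ l * (a : Fin M →₀ ℕ) l = ∑ l, δ l * a₀ l := (Finset.mem_filter.1 a.2).2
    refine ⟨div_ne_zero (hmne _ _) (hmne _ _), hu _ (hYT k) _ _ ?_ h1, ?_⟩
    · rintro l (h | h)
      · exact hsupp a a.2 l h
      · exact hsupp a₀ ha₀B l h
    · simp only [g, inv_div]
      refine hu _ (hYT k) _ _ ?_ h1.symm
      rintro l (h | h)
      · exact hsupp a₀ ha₀B l h
      · exact hsupp a a.2 l h
  have hkey := classes S hS g hg 𝒰 (fun a => R.coeff a) (Eventually.of_forall fun k => by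
      have h1 : ∀ a : B, R.coeff a * g a k =
          (R.coeff a * ∏ l, eval (Y k) (G l) ^ (a : Fin M →₀ ℕ) l) /
            ∏ l, eval (Y k) (G l) ^ a₀ l := fun a => by
        simp only [g]
        ring
      rw [Finset.sum_congr rfl fun a _ => h1 a, ← Finset.sum_div,
        Finset.sum_coe_sort B fun a => R.coeff a * ∏ l, eval (Y k) (G l) ^ a l,
        hrel _ (hYT k), zero_div]) ⟨a₀, ha₀B⟩ {⟨a₀, ha₀B⟩}
    (fun a => by
      rw [Finset.mem_singleton]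
      constructor
      · rintro rfl
        exact ⟨1, Eventually.of_forall fun k => (one_mul _).symm⟩
      · rintro ⟨c, hc⟩
        by_contra hne'
        have h1 : (a : Fin M →₀ ℕ) ≠ a₀ := fun h => hne' (Subtype.ext h)
        refine hiso a (Finset.mem_filter.1 a.2).1 h1 c (havoid _ ?_)
        filter_upwards [hc] with k hk
        have h2 : g ⟨a₀, ha₀B⟩ k = 1 := div_self (hmne _ _)
        rw [h2, mul_one] at hk
        have h3 : ∏ l, eval (Y k) (G l) ^ (a : Fin M →₀ ℕ) l =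
            c * ∏ l, eval (Y k) (G l) ^ a₀ l := by
          rw [← hk]
          exact (div_mul_cancel₀ _ (hmne _ _)).symm
        rw [map_sub, map_mul, eval_C, map_prod, map_prod]
        simp only [map_pow]
        rw [h3, sub_self])
  obtain ⟨k, hk⟩ := hkey.exists
  rw [Finset.sum_singleton] at hk
  rcases mul_eq_zero.1 hk with h1 | h1
  · exact mem_support_iff.1 ha₀ h1
  · exact (hg _ _).1 h1

end Pool.Agent.K6.H79.ZP
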