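import Pool.Agent.K6.H79.ZP.Places
import Pool.Agent.K6.H79.ZP.Rel

/-!
Families of subsets of `Y(1)^n × G_m^k` over a projective variety: the exceptional members
(helper file).
-/

set_option autoImplicit false

namespace Pool.Agent.K6.H79.ZP

open MvPolynomial Pool.Agent.R424.TG
open Pool.Agent.Y152.RP.FamM (NoAtypical)

section

variable {K : Subfield ℂ} {s : ℕ}

/-- Quotients of products of forms at points which are not near to these forms. -/
theorem flat_prod {S : Finset K} {T : Finset K}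
    (hT : ∀ x ∈ Subfield.closure (S : Set K), (∀ V : ValuationSubring K, (∀ z ∈ S, z ∈ V) → x ∈ V) →
      x ∈ Subring.closure (T : Set K))
    {t : Fin (s + 1) → K} (ht : ∀ i, t i ∈ Subfield.closure (S : Set K)) {M : ℕ}
    {G : Fin M → MvPolynomial (Fin (s + 1)) K} {δ : Fin M → ℕ}
    (hG : ∀ l, (G l).IsHomogeneous (δ l)) (hGS : ∀ l, ∀ m ∈ (G l).support, (G l).coeff m ∈ S)
    (a b : Fin M → ℕ)
    (hab : ∀ l, a l ≠ 0 ∨ b l ≠ 0 → Flat (S : Set K) t (δ l) (eval t (G l)))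
    (hδ : ∑ l, δ l * a l = ∑ l, δ l * b l) :
    (∏ l, eval t (G l) ^ a l) / ∏ l, eval t (G l) ^ b l ∈ Subring.closure (T : Set K) := by
  have hmem : ∀ l, eval t (G l) ∈ Subfield.closure (S : Set K) := by
    intro l
    rw [eval_eq']
    exact sum_mem fun m hm => mul_mem (Subfield.subset_closure (hGS l m hm))
      (prod_mem fun i _ => pow_mem (ht i) _)
  refine hT _ (div_mem (prod_mem fun l _ => pow_mem (hmem l) _)
    (prod_mem fun l _ => pow_mem (hmem l) _)) fun V hV => ?_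
  obtain ⟨i₀, hi₀⟩ := Finite.exists_max fun i => V.valuation (t i)
  have key : ∀ c : Fin M → ℕ, (∀ l, c l ≠ 0 → Flat (S : Set K) t (δ l) (eval t (G l))) →
      V.valuation (∏ l, eval t (G l) ^ c l) = V.valuation (t i₀) ^ ∑ l, δ l * c l := by
    intro c hc
    rw [map_prod, ← Finset.prod_pow_eq_pow_sum]
    refine Finset.prod_congr rfl fun l _ => ?_
    rw [map_pow, pow_mul]
    by_cases h0 : c l = 0
    · rw [h0, pow_zero, pow_zero]
    · rw [le_antisymm (val_form V t (hG l) (fun m hm => hV _ (hGS l m hm)) hi₀)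
        (hc l h0 V hV i₀)]
  rw [← ValuationSubring.valuation_le_one_iff, map_div₀, key a fun l hl => hab l (Or.inl hl),
    key b fun l hl => hab l (Or.inr hl), hδ]
  exact div_self_le_one _

end

/-- **The exceptional members.** At an exceptional parameter there is a type such that the quotients of
the products of the same degree of the forms `G l`, for which `l ∈ U` or the type is excluded near to
`G l = 0`, are in a fixed finitely generated ring. -/
theorem exceptional (K : Subfield ℂ) [Countable K] {κ : Type} [Finite κ] {n k N m s M : ℕ}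
    (𝔭 : Ideal (MvPolynomial (Fin (s + 1)) ℂ)) (h𝔭 : ∀ p ∈ 𝔭, ∀ i, homogeneousComponent i p ∈ 𝔭)
    (P : κ → MvPolynomial ((Fin n ⊕ Fin k) ⊕ Fin N) (MvPolynomial (Fin (s + 1)) K))
    (hhom : ∀ q, ∃ ε, ∀ β ∈ (P q).support, ((P q).coeff β).IsHomogeneous ε)
    (G : Fin M → MvPolynomial (Fin (s + 1)) K) (δ : Fin M → ℕ) (hδ : ∀ h, 0 < δ h)
    (hG : ∀ h, (G h).IsHomogeneous (δ h))
    (e : Fin M → κ → (((Fin n ⊕ Fin k) ⊕ Fin N) →₀ ℕ) → ℕ)
    (hfac : ∀ q, ∀ β ∈ (P q).support, ∃ c : K, c ≠ 0 ∧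
      map (algebraMap K ℂ) ((P q).coeff β - C c * ∏ h, G h ^ e h q β) ∈ 𝔭)
    (Γ F : Finset ℂ) (hΓ : ∀ γ ∈ Γ, γ ∈ K) (hF : ∀ z ∈ F, z ∈ K) (U : Finset (Fin M)) :
    ∃ Sc : Set ℂ, Sc.Finite ∧ ∀ t : Fin (s + 1) → ℂ, InBase 𝔭 t →
      (∀ i, t i ∈ Subfield.closure (F : Set ℂ)) → (∀ h, evalT t (G h) ≠ 0) →
      IntegralAt G δ U (Subring.closure (F : Set ℂ)) t →
      ¬ NoAtypical (algebraMap (Algebra.adjoin ℤ (Γ : Set ℂ)) ℂ) K m (memberM t P) →
      ∃ (r : ℕ) (cls : Fin n → Option (Fin r)) (d : Fin n → ℕ) (L : Submodule ℚ (Fin k → ℚ)),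
        (∀ i, 0 < d i) ∧ r + Module.finrank ℚ L + m < n + k ∧
        ∀ a b : Fin M → ℕ, (∀ l, a l ≠ 0 ∨ b l ≠ 0 →
          l ∈ U ∨ Excluded (fun q => (P q).support) e 𝔭 G U cls d L l) →
          ∑ l, δ l * a l = ∑ l, δ l * b l →
          (∏ l, evalT t (G l) ^ a l) / ∏ l, evalT t (G l) ^ b l ∈ Subring.closure Sc := by
  classical
  obtain ⟨S, hWG, hFS, hcore⟩ := coreW (m := m) K 𝔭 h𝔭 P hhom G δ hG e hfac Γ F hΓ hF U
  obtain ⟨T, hT⟩ := Pool.Agent.Y910.Z.exists_closure_val S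
  refine ⟨((↑) : K → ℂ) '' (T : Set K), T.finite_toSet.image _, fun t htb ht ht0 htU hno => ?_⟩
  have hTSc : ∀ z : K, z ∈ Subring.closure (T : Set K) →
      (z : ℂ) ∈ Subring.closure (((↑) : K → ℂ) '' (T : Set K)) := by
    intro z hz
    have h1 : K.subtype z ∈ (Subring.closure (T : Set K)).map K.subtype := ⟨z, hz, rfl⟩
    rw [RingHom.map_closure] at h1
    exact h1
  -- points over the finitely generated field
  have hlift : ∀ z ∈ Subfield.closure (F : Set ℂ), ∃ z' : K,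
      z' ∈ Subfield.closure (S : Set K) ∧ (z' : ℂ) = z := by
    intro z hz
    have h1 : (F : Set ℂ) ⊆ K.subtype '' (S : Set K) := fun w hw =>
      ⟨⟨w, hF w hw⟩, Finset.mem_coe.2 (hFS w hw), rfl⟩
    have h2 := Subfield.closure_mono h1 hz
    rw [← RingHom.map_field_closure] at h2
    obtain ⟨z', hz', hzz⟩ := Subfield.mem_map.1 h2
    exact ⟨z', hz', hzz⟩
  choose t' ht'1 ht'2 using fun i => hlift (t i) (ht i)
  obtain rfl : (fun i => ((t' i : K) : ℂ)) = t := funext ht'2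
  simp only [evalT_coe] at ht0 htU ⊢
  have ht0' : ∀ h, eval t' (G h) ≠ 0 := fun h h0 => ht0 h (by rw [h0]; rfl)
  by_contra hcon
  push Not at hcon
  apply hno
  refine hcore _ K le_rfl htb (fun h => by rw [evalT_coe]; exact ht0 h) htU
    fun r cls d L hd hr => ?_
  obtain ⟨a, b, hab, hδab, hl'⟩ := hcon r cls d L hd hr
  by_cases hflat : ∀ l, a l ≠ 0 ∨ b l ≠ 0 → Flat (S : Set K) t' (δ l) (eval t' (G l))
  · refine absurd ?_ hl'
    have h1 := hTSc _ (flat_prod hT ht'1 hG (fun l => hWG l) a b hflat hδab)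
    push_cast at h1
    exact h1
  · push Not at hflat
    obtain ⟨l, hl, hflat⟩ := hflat
    refine ⟨l, ?_, ?_⟩
    · rcases hab l hl with hlU | hl
      · refine absurd ?_ hflat
        intro V hV i
        have h1 := htU l hlU i
        rw [evalT_coe] at h1
        have h2 : t' i ^ δ l / eval t' (G l) ∈ V := by
          have h3 : Subring.closure (F : Set ℂ) ≤ V.toSubring.map K.subtype := by
            refine Subring.closure_le.2 fun z hz => ?_
            exact ⟨⟨z, hF z hz⟩, hV _ (Finset.mem_coe.2 (hFS z hz)), rfl⟩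
          obtain ⟨x, hx1, hx2⟩ := h3 h1
          have h4 : x = t' i ^ δ l / eval t' (G l) := by
            apply Subtype.ext
            rw [show (x : ℂ) = K.subtype x from rfl, hx2]
            push_cast
            rfl
          rw [← h4]
          exact hx1
        rw [← ValuationSubring.valuation_le_one_iff, map_div₀, map_pow] at h2
        exact (div_le_one₀ (zero_lt_iff.2 ((Valuation.ne_zero_iff _).2 (ht0' l)))).1 h2
      · exact hl
    · rw [evalT_coe]
      exact near_of_not_flat (hδ l) hflat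

/-- The image of the period map is contained in the member of the family given by the system. -/
theorem image_memberM {K : Subfield ℂ} {κ₀ κ : Type} {n k N s : ℕ} (t : Fin (s + 1) → ℂ)
    (P : κ₀ → MvPolynomial (Fin N) (MvPolynomial (Fin (s + 1)) K))
    (A B : Fin n → MvPolynomial (Fin N) (MvPolynomial (Fin (s + 1)) K))
    (U : Fin k → MvPolynomial (Fin N) (MvPolynomial (Fin (s + 1)) K))
    (E : κ → MvPolynomial ((Fin n ⊕ Fin k) ⊕ Fin N) (MvPolynomial (Fin (s + 1)) K))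
    (hE : ∀ y, OnS (evalT t) P A B U y → ∀ q,
      eval₂ (evalT t) (Sum.elim (period (evalT t) A B U y) y) (E q) = 0) :
    image (evalT t) P A B U ⊆ memberM t E := by
  rintro x ⟨y, hy, rfl⟩
  refine ⟨fun j => hy.2.2 j, y, fun q => ?_⟩
  have h1 := hE y hy q
  rw [eval₂_eq'] at h1
  exact h1

/-- For every type of special subvarieties of dimension less than `n + k - m` there is a relation
between the forms `G l`, such that `l ∈ U` or the type is excluded near to `G l = 0`, on the variety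
with the ideal `𝔭`, in which one of the monomials is not proportional to any other monomial. -/
def GenericB {K : Subfield ℂ} {s M n k N : ℕ} {κ : Type} (m : ℕ)
    (supp : κ → Finset (((Fin n ⊕ Fin k) ⊕ Fin N) →₀ ℕ))
    (e : Fin M → κ → (((Fin n ⊕ Fin k) ⊕ Fin N) →₀ ℕ) → ℕ)
    (𝔭 : Ideal (MvPolynomial (Fin (s + 1)) ℂ))
    (G : Fin M → MvPolynomial (Fin (s + 1)) K) (U : Finset (Fin M)) : Prop :=
  ∀ (r : ℕ) (cls : Fin n → Option (Fin r)) (d : Fin n → ℕ) (L : Submodule ℚ (Fin k → ℚ)),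
    (∀ i, 0 < d i) → r + Module.finrank ℚ L + m < n + k →
      Related 𝔭 (fun l => map (algebraMap K ℂ) (G l))
        {l | l ∈ U ∨ Excluded supp e 𝔭 G U cls d L l}

/-- **Outside of a proper closed subset.** -/
theorem familyB (K : Subfield ℂ) [Countable K] {κ : Type} [Finite κ] {n k N m s M : ℕ}
    (𝔭 : Ideal (MvPolynomial (Fin (s + 1)) ℂ)) (hp : 𝔭.IsPrime)
    (h𝔭 : ∀ p ∈ 𝔭, ∀ i, homogeneousComponent i p ∈ 𝔭)
    (P : κ → MvPolynomial ((Fin n ⊕ Fin k) ⊕ Fin N) (MvPolynomial (Fin (s + 1)) K))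
    (hhom : ∀ q, ∃ ε, ∀ β ∈ (P q).support, ((P q).coeff β).IsHomogeneous ε)
    (G : Fin M → MvPolynomial (Fin (s + 1)) K) (δ : Fin M → ℕ) (hδ : ∀ h, 0 < δ h)
    (hG : ∀ h, (G h).IsHomogeneous (δ h))
    (e : Fin M → κ → (((Fin n ⊕ Fin k) ⊕ Fin N) →₀ ℕ) → ℕ)
    (hfac : ∀ q, ∀ β ∈ (P q).support, ∃ c : K, c ≠ 0 ∧
      map (algebraMap K ℂ) ((P q).coeff β - C c * ∏ h, G h ^ e h q β) ∈ 𝔭)
    (Γ F : Finset ℂ) (hΓ : ∀ γ ∈ Γ, γ ∈ K) (hF : ∀ z ∈ F, z ∈ K) (U : Finset (Fin M))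
    (hgen : GenericB m (fun q => (P q).support) e 𝔭 G U) :
    ∃ Φ : MvPolynomial (Fin (s + 1)) ℂ, Φ ∉ 𝔭 ∧ ∀ t : Fin (s + 1) → ℂ, InBase 𝔭 t →
      (∀ i, t i ∈ Subfield.closure (F : Set ℂ)) → (∀ h, evalT t (G h) ≠ 0) →
      IntegralAt G δ U (Subring.closure (F : Set ℂ)) t →
      ¬ NoAtypical (algebraMap (Algebra.adjoin ℤ (Γ : Set ℂ)) ℂ) K m (memberM t P) →
      eval t Φ = 0 := by
  classical
  obtain ⟨Sc, hSc, hexc⟩ := exceptional (m := m) K 𝔭 h𝔭 P hhom G δ hδ hG e hfac Γ F hΓ hF U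
  have hcount : {t : Fin (s + 1) → ℂ | ∀ i, t i ∈ Subfield.closure (F : Set ℂ)}.Countable := by
    have h1 : (K : Set ℂ).Countable := Set.countable_coe_iff.1 ‹Countable K›
    have h2 : Subfield.closure (F : Set ℂ) ≤ K := Subfield.closure_le.2 fun z hz => hF z hz
    refine (Set.countable_univ_pi (fun _ : Fin (s + 1) => h1)).mono ?_
    intro t ht i _
    exact h2 (ht i)
  have hev : ∀ (t : Fin (s + 1) → ℂ) (p : MvPolynomial (Fin (s + 1)) K),
      eval t (map (algebraMap K ℂ) p) = evalT t p := fun t p => eval_map _ _ _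
  -- the exceptional points for a set of hypersurfaces
  let TJ : Set (Fin M) → Set (Fin (s + 1) → ℂ) := fun J =>
    {t | InBase 𝔭 t ∧ (∀ i, t i ∈ Subfield.closure (F : Set ℂ)) ∧ (∀ l, evalT t (G l) ≠ 0) ∧
      ∀ a b : Fin M → ℕ, (∀ l, a l ≠ 0 ∨ b l ≠ 0 → l ∈ J) → ∑ l, δ l * a l = ∑ l, δ l * b l →
        (∏ l, evalT t (G l) ^ a l) / ∏ l, evalT t (G l) ^ b l ∈ Subring.closure Sc}
  have hJ : ∀ J : Set (Fin M), ∃ Φ : MvPolynomial (Fin (s + 1)) ℂ, Φ ∉ 𝔭 ∧
      (Related 𝔭 (fun l => map (algebraMap K ℂ) (G l)) J → ∀ t ∈ TJ J, eval t Φ = 0) := by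
    intro J
    by_cases hgp : Related 𝔭 (fun l => map (algebraMap K ℂ) (G l)) J
    swap
    · exact ⟨1, fun h => hp.ne_top ((Ideal.eq_top_iff_one _).2 h), fun h1 => absurd h1 hgp⟩
    obtain ⟨Φ, hΦ, hΦ'⟩ := degenerateB 𝔭 hp h𝔭 Sc hSc (TJ J) (hcount.mono fun t ht => ht.2.1)
      (fun t ht => ht.1) (fun l => map (algebraMap K ℂ) (G l)) δ (fun l => (hG l).map _) J hgp
      (fun t ht l => by
        rw [hev]
        exact ht.2.2.1 l) (fun t ht a b hab hδab => by
        simp only [hev]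
        exact ht.2.2.2 a b hab hδab)
    exact ⟨Φ, hΦ, fun _ => hΦ'⟩
  choose Φ hΦ hΦ' using hJ
  refine ⟨∏ J, Φ J, fun h => ?_, fun t htb ht ht0 htU hno => ?_⟩
  · obtain ⟨J, _, hJ⟩ := (Ideal.IsPrime.prod_mem_iff (hp := hp)).1 h
    exact hΦ J hJ
  obtain ⟨r, cls, d, L, hd, hr, hq⟩ := hexc t htb ht ht0 htU hno
  rw [map_prod]
  exact Finset.prod_eq_zero (Finset.mem_univ _) (hΦ' _ (hgen r cls d L hd hr) t
    ⟨htb, ht, ht0, hq⟩)

end Pool.Agent.K6.H79.ZP
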