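import Pool.Agent.K6.H79.ZP.Core

/-!
Places near to hypersurfaces (helper file).
-/

set_option autoImplicit false

namespace Pool.Agent.K6.H79.ZP

open MvPolynomial Pool.Agent.R424.TG

/-- A valuation ring of a subfield `k` can be extended such that numbers which are algebraically
independent over `k` are units. -/
theorem gauss_ext' {k : Type} [Field k] [Algebra k ℂ] (V₀ : ValuationSubring k) {ρ : Type}
    (x : ρ → ℂ) (hx : AlgebraicIndependent k x) : ∃ V : ValuationSubring ℂ,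
      (∀ a : k, a ∈ V₀ → algebraMap k ℂ a ∈ V) ∧
      (∀ a : k, V₀.valuation a < 1 → V.valuation (algebraMap k ℂ a) < 1) ∧
      ∀ j, V.valuation (x j) = 1 := by
  classical
  let i1 : Algebra V₀ ℂ := ((algebraMap k ℂ).comp V₀.subtype).toAlgebra
  have hmap : ∀ z : V₀, algebraMap V₀ ℂ z = algebraMap k ℂ (z : k) := fun z => rfl
  have hT : IsScalarTower V₀ k ℂ := IsScalarTower.of_algebraMap_eq fun z => rfl
  have hinj : Function.Injective (algebraMap V₀ k) := Subtype.val_injective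
  have hx' : AlgebraicIndependent V₀ x := hx.restrictScalars hinj
  let 𝔭 : Ideal V₀ := IsLocalRing.maximalIdeal V₀
  have h𝔭 : 𝔭.IsPrime := inferInstance
  obtain ⟨V, hV1, hV2⟩ := Pool.Agent.Y152.BD.exists_place_gauss 𝔭 x hx'
  refine ⟨V, fun a ha => ?_, fun a ha => ?_, fun j => ?_⟩
  · have h1 := hV1 (C (⟨a, ha⟩ : V₀))
    rw [aeval_C, hmap] at h1
    exact (ValuationSubring.valuation_le_one_iff _ _).1 h1
  · have haV : a ∈ V₀ := (ValuationSubring.valuation_le_one_iff _ _).1 ha.le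
    have hmem : (⟨a, haV⟩ : V₀) ∈ 𝔭 := (ValuationSubring.valuation_lt_one_iff V₀ ⟨a, haV⟩).2 ha
    have h1 := (hV2 (C (⟨a, haV⟩ : V₀))).2 (by
      rw [MvPolynomial.map_C, (Ideal.Quotient.eq_zero_iff_mem).2 hmem, map_zero])
    rw [aeval_C, hmap] at h1
    exact h1
  · have h1 := hV1 (X j)
    rw [aeval_X] at h1
    refine le_antisymm h1 (not_lt.1 fun h2 => ?_)
    have h3 := (hV2 (X j)).1 (by rw [aeval_X]; exact h2)
    rw [MvPolynomial.map_X] at h3
    have : Nontrivial (V₀ ⧸ 𝔭) := Ideal.Quotient.nontrivial_iff.2 h𝔭.ne_top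
    exact MvPolynomial.X_ne_zero j h3

section

variable {K : Subfield ℂ} {s : ℕ}

/-- The value of `c` is not smaller than the `δ`-th powers of the values of the coordinates of `t`, at
all valuation rings which contain `S`. -/
def Flat (S : Set K) (t : Fin (s + 1) → K) (δ : ℕ) (c : K) : Prop :=
  ∀ V₀ : ValuationSubring K, (∀ z ∈ S, z ∈ V₀) → ∀ i, V₀.valuation (t i) ^ δ ≤ V₀.valuation c

theorem near_of_not_flat {S : Set K} {t : Fin (s + 1) → K} {δ : ℕ} (hδ : 0 < δ) {c : K}
    (h : ¬ Flat S t δ c) : Near S K (fun i => (t i : ℂ)) δ (c : ℂ) := by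
  classical
  simp only [Flat] at h
  push Not at h
  obtain ⟨V₀, hV₀, i, hi⟩ := h
  intro ρ x hx
  obtain ⟨V, hV1, hV2, hV3⟩ := gauss_ext' V₀ x hx
  obtain ⟨i₀, hi₀⟩ := Finite.exists_max fun i => V₀.valuation (t i)
  have hlt' : V₀.valuation c < V₀.valuation (t i₀) ^ δ :=
    hi.trans_le (pow_le_pow_left₀ zero_le (hi₀ i) δ)
  have hti₀ : t i₀ ≠ 0 := by
    intro h0
    rw [h0, map_zero, zero_pow hδ.ne'] at hlt'
    exact not_lt_zero hlt'
  have hv0 : V₀.valuation (t i₀) ≠ 0 := (Valuation.ne_zero_iff _).2 hti₀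
  have hti₀' : ((t i₀ : K) : ℂ) ≠ 0 := by exact_mod_cast hti₀
  have hv1 : V.valuation ((t i₀ : K) : ℂ) ≠ 0 := (Valuation.ne_zero_iff _).2 hti₀'
  refine ⟨V, i₀, fun z hz => hV1 z (hV₀ z hz), hti₀', fun j => ?_, ?_, hV3⟩
  · have h2 : t j / t i₀ ∈ V₀ := by
      rw [← ValuationSubring.valuation_le_one_iff, map_div₀]
      exact div_le_one_of_le₀ (hi₀ j) zero_le
    have h3 := (ValuationSubring.valuation_le_one_iff _ _).2 (hV1 _ h2)
    rw [map_div₀, map_div₀] at h3
    exact (div_le_one₀ (zero_lt_iff.2 hv1)).1 h3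
  · have h2 : V₀.valuation (c / t i₀ ^ δ) < 1 := by
      rw [map_div₀, map_pow]
      exact (div_lt_one₀ (zero_lt_iff.2 (pow_ne_zero _ hv0))).2 hlt'
    have h3 := hV2 _ h2
    rw [map_div₀, map_div₀, map_pow, map_pow] at h3
    exact (div_lt_one₀ (zero_lt_iff.2 (pow_ne_zero _ hv1))).1 h3

theorem evalT_coe (t : Fin (s + 1) → K) (p : MvPolynomial (Fin (s + 1)) K) :
    evalT (fun i => (t i : ℂ)) p = ((eval t p : K) : ℂ) := by
  rw [evalT_eq, eval_eq']
  push_cast
  rfl

/-- The value of a form. -/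
theorem val_form (V₀ : ValuationSubring K) (t : Fin (s + 1) → K)
    {p : MvPolynomial (Fin (s + 1)) K} {δ : ℕ} (hp : p.IsHomogeneous δ)
    (hpV : ∀ m ∈ p.support, p.coeff m ∈ V₀) {i₀ : Fin (s + 1)}
    (hi₀ : ∀ i, V₀.valuation (t i) ≤ V₀.valuation (t i₀)) :
    V₀.valuation (eval t p) ≤ V₀.valuation (t i₀) ^ δ := by
  rw [eval_eq']
  refine Valuation.map_sum_le _ fun m hm => ?_
  have h1 : ∑ i, m i = δ := by
    have h2 := hp (mem_support_iff.1 hm)
    rw [Finsupp.weight_apply, Finsupp.sum_fintype _ _ (fun _ => by simp)] at h2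
    simpa using h2
  rw [map_mul, map_prod, ← h1, ← Finset.prod_pow_eq_pow_sum]
  refine (mul_le_of_le_one_left' ((ValuationSubring.valuation_le_one_iff _ _).2
    (hpV m hm))).trans ?_
  refine Finset.prod_le_prod' fun i _ => ?_
  rw [map_pow]
  exact pow_le_pow_left₀ zero_le (hi₀ i) _

/-- Quotients of forms at points which are not near to the denominator. -/
theorem flat_mem {S : Finset K} {T : Finset K}
    (hT : ∀ x ∈ Subfield.closure (S : Set K), (∀ V : ValuationSubring K, (∀ z ∈ S, z ∈ V) → x ∈ V) →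
      x ∈ Subring.closure (T : Set K))
    {t : Fin (s + 1) → K} (ht : ∀ i, t i ∈ Subfield.closure (S : Set K))
    {p q : MvPolynomial (Fin (s + 1)) K} {δ ε : ℕ} (hq : q.IsHomogeneous ε)
    (hpS : ∀ m ∈ p.support, p.coeff m ∈ S) (hqS : ∀ m ∈ q.support, q.coeff m ∈ S)
    (hp0 : eval t p ≠ 0) (hflat : Flat (S : Set K) t δ (eval t p)) :
    eval t q ^ δ / eval t p ^ ε ∈ Subring.closure (T : Set K) := by
  have hmem : ∀ p : MvPolynomial (Fin (s + 1)) K, (∀ m ∈ p.support, p.coeff m ∈ S) →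
      eval t p ∈ Subfield.closure (S : Set K) := by
    intro p hp
    rw [eval_eq']
    exact sum_mem fun m hm => mul_mem (Subfield.subset_closure (hp m hm))
      (prod_mem fun i _ => pow_mem (ht i) _)
  refine hT _ (div_mem (pow_mem (hmem q hqS) _) (pow_mem (hmem p hpS) _)) fun V hV => ?_
  rw [← ValuationSubring.valuation_le_one_iff, map_div₀, map_pow, map_pow]
  have hv : V.valuation (eval t p) ≠ 0 := (Valuation.ne_zero_iff _).2 hp0
  obtain ⟨i₀, hi₀⟩ := Finite.exists_max fun i => V.valuation (t i)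
  refine (div_le_one₀ (zero_lt_iff.2 (pow_ne_zero _ hv))).2 ?_
  calc V.valuation (eval t q) ^ δ ≤ (V.valuation (t i₀) ^ ε) ^ δ :=
        pow_le_pow_left₀ zero_le (val_form V t hq (fun m hm => hV _ (hqS m hm)) hi₀) _
    _ = (V.valuation (t i₀) ^ δ) ^ ε := by rw [← pow_mul, ← pow_mul, mul_comm]
    _ ≤ _ := pow_le_pow_left₀ zero_le (hflat V hV i₀) _

theorem exp_single {p : MvPolynomial (Fin (s + 1)) K} (hp : p.IsHomogeneous 1)
    {m : Fin (s + 1) →₀ ℕ} (hm : m ∈ p.support) : ∃ i, m = Finsupp.single i 1 := by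
  have h2 := hp (mem_support_iff.1 hm)
  rw [Finsupp.weight_apply] at h2
  refine (Finsupp.sum_eq_one_iff m).1 ?_
  refine Eq.trans ?_ h2
  refine Finsupp.sum_congr fun i _ => ?_
  simp

theorem prod_pow_single (t : Fin (s + 1) → ℂ) (i : Fin (s + 1)) :
    ∏ j, t j ^ (Finsupp.single i 1 : Fin (s + 1) →₀ ℕ) j = t i := by
  classical
  rw [Finset.prod_eq_single i]
  · rw [Finsupp.single_eq_same, pow_one]
  · intro j _ hj
    rw [Finsupp.single_eq_of_ne hj, pow_zero]
  · intro h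
    exact absurd (Finset.mem_univ i) h

/-- The linear form given by a homogeneous polynomial of degree `1`. -/
noncomputable def lin (p : MvPolynomial (Fin (s + 1)) K) (hp : p.IsHomogeneous 1) :
    (Fin (s + 1) → ℂ) →ₗ[ℂ] ℂ where
  toFun t := evalT t p
  map_add' t t' := by
    rw [evalT_eq, evalT_eq, evalT_eq, ← Finset.sum_add_distrib]
    refine Finset.sum_congr rfl fun m hm => ?_
    obtain ⟨i, rfl⟩ := exp_single hp hm
    rw [prod_pow_single, prod_pow_single, prod_pow_single, Pi.add_apply]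
    ring
  map_smul' c t := by
    rw [evalT_eq, evalT_eq, smul_eq_mul, RingHom.id_apply, Finset.mul_sum]
    refine Finset.sum_congr rfl fun m hm => ?_
    obtain ⟨i, rfl⟩ := exp_single hp hm
    rw [prod_pow_single, prod_pow_single, Pi.smul_apply, smul_eq_mul]
    ring

theorem lin_apply (p : MvPolynomial (Fin (s + 1)) K) (hp : p.IsHomogeneous 1)
    (t : Fin (s + 1) → ℂ) : lin p hp t = evalT t p := rfl

end

end Pool.Agent.K6.H79.ZP
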